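import Mathlib

/-!
Degree three and four consequences of the identities `f`, `WA`, `g1`, `g2` in a nonassociative
ring without additive torsion, in terms of the commutator `br` and the anticommutator `ci`.
-/

set_option autoImplicit false
set_option linter.unusedSimpArgs false

namespace Pool.Agent.PermMut

universe v

variable {A : Type v} [NonUnitalNonAssocRing A]

/-- commutator -/
def br (x y : A) : A := x * y - y * x
/-- anticommutator -/
def ci (x y : A) : A := x * y + y * x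

lemma br_zero (x : A) : br x 0 = 0 := by simp [br]
lemma ci_zero (x : A) : ci x 0 = 0 := by simp [ci]

variable (A) in
/-- the identities used, and absence of additive torsion -/
structure Hyp : Prop where
  tf : ∀ (n : ℤ) (t : A), n ≠ 0 → n • t = 0 → t = 0
  hf : ∀ x y z : A, x * y * z + y * z * x + z * x * y - y * x * z - x * z * y - z * y * x = 0
  hwa : ∀ a b c : A, (a * b * c - a * (b * c)) + (b * c * a - b * (c * a))
    - (b * a * c - b * (a * c)) = 0
  hg1 : ∀ a b c d : A, a * b * c * d + c * d * a * b - a * d * c * b - c * b * a * d = 0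
  hg2 : ∀ a b c d : A, (a * b) * (d * c) + c * (b * a) * d + b * a * c * d - a * b * d * c
    - b * c * a * d - c * a * b * d = 0

def LBp (a b c : A) : A := br (ci a b) c - ci a (br b c) - ci b (br a c)
def JAp (a b c : A) : A := br (br a b) c + br (br b c) a + br (br c a) b
def CYp (a b c : A) : A := ci (br a b) c + ci (br b c) a + ci (br c a) b
/-- associator for the anticommutator product -/
def aso (a b c : A) : A := ci (ci a b) c - ci a (ci b c)
def G1p (a b c d : A) : A := a * b * c * d + c * d * a * b - a * d * c * b - c * b * a * d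
def G2p (a b c d : A) : A := (a * b) * (d * c) + c * (b * a) * d + b * a * c * d - a * b * d * c
    - b * c * a * d - c * a * b * d
def B1cp (a b c d : A) : A := ci (br a b) (br c d)
def B1bp (a b c d : A) : A := ci a (br b (br c d)) - ci b (br a (br c d))
def B1dp (a b c d : A) : A := br (br a b) (br c d)
def B1ap (a b c d : A) : A := ci (ci a b) (br c d) - (ci a (ci b (br c d)) + ci a (ci b (br c d)))
def B1a1p (a b c d : A) : A := ci (br a b) (ci c d) - ci (ci (br a b) c) d - ci (ci (br a b) d) c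
def GXp (a b c d : A) : A := aso (ci a b) d c - ci d (aso a b c) - ci d (aso b a c)
def AAp (x y z t : A) : A := ci x (ci y (br z t)) - ci y (ci x (br z t))
def hhp (a b c d : A) : A := ci (aso a b c) d - ci (aso a d c) b
def GYp (a b c d : A) : A := hhp a b c d + (5 : ℤ) • AAp d b a c + (2 : ℤ) • AAp c a b d +
  br (br a c) (br b d)
def I1p (x a b c : A) : A := ci x (aso a b c) - ci b (aso a x c)
def I2p (a x b c : A) : A := aso (ci a x) b c - ci a (aso x b c) - ci x (aso a b c)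
def I3p (a b x c : A) : A := aso a (ci b x) c - (ci x (aso a b c) + ci x (aso a b c))

lemma G10 (h : Hyp A) (a b c d : A) : G1p a b c d = 0 := h.hg1 a b c d
lemma G20 (h : Hyp A) (a b c d : A) : G2p a b c d = 0 := h.hg2 a b c d

def WAp (a b c : A) : A := (a * b * c - a * (b * c)) + (b * c * a - b * (c * a))
    - (b * a * c - b * (a * c))
def Fp (x y z : A) : A := x * y * z + y * z * x + z * x * y - y * x * z - x * z * y - z * y * x

lemma LB0 (h : Hyp A) (a b c : A) : LBp a b c = 0 := by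
  have key : LBp a b c = WAp c a b + WAp c b a := by
    simp only [LBp, WAp, br, ci, mul_add, add_mul, mul_sub, sub_mul]
    abel
  rw [key, WAp, WAp, h.hwa, h.hwa, add_zero]

lemma JA0 (h : Hyp A) (a b c : A) : JAp a b c = 0 := by
  have key : JAp a b c = WAp c a b - WAp c b a := by
    simp only [JAp, WAp, br, ci, mul_add, add_mul, mul_sub, sub_mul]
    abel
  rw [key, WAp, WAp, h.hwa, h.hwa, sub_zero]

lemma CY0 (h : Hyp A) (a b c : A) : CYp a b c = 0 := by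
  have key : CYp a b c = WAp c b a - WAp c a b + Fp a b c + Fp a b c := by
    simp only [CYp, WAp, Fp, br, ci, mul_add, add_mul, mul_sub, sub_mul]
    abel
  rw [key, WAp, WAp, Fp, h.hwa, h.hwa, h.hf]
  simp

theorem B1c0 (h : Hyp A) (a b c d : A) : B1cp a b c d = 0 := by
  have key : (4 : ℤ) • B1cp a b c d =
      (1 : ℤ) • (br b (JAp a c d))
      + (1 : ℤ) • (ci a (JAp b c d))
      + (2 : ℤ) • (CYp (br c d) a b)
      + (-1 : ℤ) • (ci b (CYp a c d))
      + (-4 : ℤ) • (G2p d c b a)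
      + (-1 : ℤ) • (br a (JAp b c d))
      + (-1 : ℤ) • (ci b (JAp a c d))
      + (4 : ℤ) • (G2p c d b a)
      + (1 : ℤ) • (ci a (CYp b c d))
      + (2 : ℤ) • (JAp (br c d) a b)
      + (-4 : ℤ) • (G2p c d a b)
      + (4 : ℤ) • (G2p d c a b)
      + (-1 : ℤ) • (br a (CYp b c d))
      + (1 : ℤ) • (br b (CYp a c d)) := by
    simp only [B1cp, G1p, G2p, GXp, GYp, hhp, LBp, JAp, CYp, B1cp, B1bp, B1a1p, AAp, I1p, B1dp, I3p, I2p, B1ap, aso, br, ci, mul_add, add_mul, mul_sub, sub_mul, smul_add, smul_sub]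
    abel
  have e0 : br b (JAp a c d) = 0 := (by rw [JA0 h]; exact br_zero _)
  have e1 : ci a (JAp b c d) = 0 := (by rw [JA0 h]; exact ci_zero _)
  have e2 : CYp (br c d) a b = 0 := (CY0 h _ _ _)
  have e3 : ci b (CYp a c d) = 0 := (by rw [CY0 h]; exact ci_zero _)
  have e4 : G2p d c b a = 0 := (G20 h _ _ _ _)
  have e5 : br a (JAp b c d) = 0 := (by rw [JA0 h]; exact br_zero _)
  have e6 : ci b (JAp a c d) = 0 := (by rw [JA0 h]; exact ci_zero _)
  have e7 : G2p c d b a = 0 := (G20 h _ _ _ _)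
  have e8 : ci a (CYp b c d) = 0 := (by rw [CY0 h]; exact ci_zero _)
  have e9 : JAp (br c d) a b = 0 := (JA0 h _ _ _)
  have e10 : G2p c d a b = 0 := (G20 h _ _ _ _)
  have e11 : G2p d c a b = 0 := (G20 h _ _ _ _)
  have e12 : br a (CYp b c d) = 0 := (by rw [CY0 h]; exact br_zero _)
  have e13 : br b (CYp a c d) = 0 := (by rw [CY0 h]; exact br_zero _)
  rw [e0, e1, e2, e3, e4, e5, e6, e7, e8, e9, e10, e11, e12, e13] at key
  exact h.tf 4 _ (by norm_num) (by simpa using key)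

theorem B1b0 (h : Hyp A) (a b c d : A) : B1bp a b c d = 0 := by
  have key : (1 : ℤ) • B1bp a b c d =
      (-1 : ℤ) • (B1cp a b c d)
      + (1 : ℤ) • (CYp (br c d) a b) := by
    simp only [B1bp, G1p, G2p, GXp, GYp, hhp, LBp, JAp, CYp, B1cp, B1bp, B1a1p, AAp, I1p, B1dp, I3p, I2p, B1ap, aso, br, ci, mul_add, add_mul, mul_sub, sub_mul, smul_add, smul_sub]
    abel
  have e0 : B1cp a b c d = 0 := (B1c0 h _ _ _ _)
  have e1 : CYp (br c d) a b = 0 := (CY0 h _ _ _)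
  rw [e0, e1] at key
  exact h.tf 1 _ (by norm_num) (by simpa using key)

theorem B1a10 (h : Hyp A) (a b c d : A) : B1a1p a b c d = 0 := by
  have key : (1 : ℤ) • B1a1p a b c d =
      (-4 : ℤ) • (G2p b a d c)
      + (1 : ℤ) • (JAp (br a b) c d)
      + (1 : ℤ) • (LBp (br a b) d c)
      + (1 : ℤ) • (LBp (br a b) c d)
      + (-1 : ℤ) • (br c (JAp a b d))
      + (-2 : ℤ) • (B1cp a b c d)
      + (1 : ℤ) • (ci c (JAp a b d))
      + (-1 : ℤ) • (br c (CYp a b d))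
      + (4 : ℤ) • (G2p a b d c)
      + (1 : ℤ) • (LBp c d (br a b))
      + (1 : ℤ) • (ci c (CYp a b d))
      + (1 : ℤ) • (CYp (br a b) c d) := by
    simp only [B1a1p, G1p, G2p, GXp, GYp, hhp, LBp, JAp, CYp, B1cp, B1bp, B1a1p, AAp, I1p, B1dp, I3p, I2p, B1ap, aso, br, ci, mul_add, add_mul, mul_sub, sub_mul, smul_add, smul_sub]
    abel
  have e0 : G2p b a d c = 0 := (G20 h _ _ _ _)
  have e1 : JAp (br a b) c d = 0 := (JA0 h _ _ _)
  have e2 : LBp (br a b) d c = 0 := (LB0 h _ _ _)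
  have e3 : LBp (br a b) c d = 0 := (LB0 h _ _ _)
  have e4 : br c (JAp a b d) = 0 := (by rw [JA0 h]; exact br_zero _)
  have e5 : B1cp a b c d = 0 := (B1c0 h _ _ _ _)
  have e6 : ci c (JAp a b d) = 0 := (by rw [JA0 h]; exact ci_zero _)
  have e7 : br c (CYp a b d) = 0 := (by rw [CY0 h]; exact br_zero _)
  have e8 : G2p a b d c = 0 := (G20 h _ _ _ _)
  have e9 : LBp c d (br a b) = 0 := (LB0 h _ _ _)
  have e10 : ci c (CYp a b d) = 0 := (by rw [CY0 h]; exact ci_zero _)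
  have e11 : CYp (br a b) c d = 0 := (CY0 h _ _ _)
  rw [e0, e1, e2, e3, e4, e5, e6, e7, e8, e9, e10, e11] at key
  exact h.tf 1 _ (by norm_num) (by simpa using key)

theorem GX0 (h : Hyp A) (a b c d : A) : GXp a b c d = 0 := by
  have key : (1 : ℤ) • GXp a b c d =
      (-2 : ℤ) • (ci a (LBp b c d))
      + (-1 : ℤ) • (CYp (ci a c) b d)
      + (-1 : ℤ) • (LBp (ci a b) d c)
      + (-4 : ℤ) • (B1bp a c b d)
      + (-4 : ℤ) • (G2p c a b d)
      + (1 : ℤ) • (br d (LBp a b c))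
      + (-1 : ℤ) • (LBp (ci a c) b d)
      + (-4 : ℤ) • (G2p b a c d)
      + (-1 : ℤ) • (CYp (ci b c) a d)
      + (1 : ℤ) • (LBp a b (ci c d))
      + (1 : ℤ) • (ci a (CYp b c d))
      + (4 : ℤ) • (G2p c a d b)
      + (1 : ℤ) • (br d (LBp b c a))
      + (4 : ℤ) • (G2p a c b d)
      + (-1 : ℤ) • (ci d (CYp a b c))
      + (-1 : ℤ) • (LBp (ci b c) a d)
      + (-1 : ℤ) • (ci b (JAp a c d))
      + (-2 : ℤ) • (CYp (br a c) b d)
      + (2 : ℤ) • (LBp (ci a b) c d)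
      + (-4 : ℤ) • (G2p a b c d)
      + (3 : ℤ) • (B1a1p c d a b)
      + (-2 : ℤ) • (ci b (LBp a c d))
      + (1 : ℤ) • (br d (LBp a c b))
      + (4 : ℤ) • (CYp (br b d) a c)
      + (1 : ℤ) • (br d (CYp a b c))
      + (-4 : ℤ) • (G2p a c d b)
      + (1 : ℤ) • (JAp (ci a b) c d)
      + (-1 : ℤ) • (ci a (LBp c d b))
      + (-1 : ℤ) • (CYp (ci a b) c d)
      + (1 : ℤ) • (br d (JAp a b c))
      + (1 : ℤ) • (br b (JAp a c d))
      + (-1 : ℤ) • (ci b (LBp c d a))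
      + (-2 : ℤ) • (JAp (br a c) b d)
      + (-1 : ℤ) • (ci d (JAp a b c))
      + (1 : ℤ) • (br b (CYp a c d)) := by
    simp only [GXp, G1p, G2p, GXp, GYp, hhp, LBp, JAp, CYp, B1cp, B1bp, B1a1p, AAp, I1p, B1dp, I3p, I2p, B1ap, aso, br, ci, mul_add, add_mul, mul_sub, sub_mul, smul_add, smul_sub]
    abel
  have e0 : ci a (LBp b c d) = 0 := (by rw [LB0 h]; exact ci_zero _)
  have e1 : CYp (ci a c) b d = 0 := (CY0 h _ _ _)
  have e2 : LBp (ci a b) d c = 0 := (LB0 h _ _ _)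
  have e3 : B1bp a c b d = 0 := (B1b0 h _ _ _ _)
  have e4 : G2p c a b d = 0 := (G20 h _ _ _ _)
  have e5 : br d (LBp a b c) = 0 := (by rw [LB0 h]; exact br_zero _)
  have e6 : LBp (ci a c) b d = 0 := (LB0 h _ _ _)
  have e7 : G2p b a c d = 0 := (G20 h _ _ _ _)
  have e8 : CYp (ci b c) a d = 0 := (CY0 h _ _ _)
  have e9 : LBp a b (ci c d) = 0 := (LB0 h _ _ _)
  have e10 : ci a (CYp b c d) = 0 := (by rw [CY0 h]; exact ci_zero _)
  have e11 : G2p c a d b = 0 := (G20 h _ _ _ _)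
  have e12 : br d (LBp b c a) = 0 := (by rw [LB0 h]; exact br_zero _)
  have e13 : G2p a c b d = 0 := (G20 h _ _ _ _)
  have e14 : ci d (CYp a b c) = 0 := (by rw [CY0 h]; exact ci_zero _)
  have e15 : LBp (ci b c) a d = 0 := (LB0 h _ _ _)
  have e16 : ci b (JAp a c d) = 0 := (by rw [JA0 h]; exact ci_zero _)
  have e17 : CYp (br a c) b d = 0 := (CY0 h _ _ _)
  have e18 : LBp (ci a b) c d = 0 := (LB0 h _ _ _)
  have e19 : G2p a b c d = 0 := (G20 h _ _ _ _)
  have e20 : B1a1p c d a b = 0 := (B1a10 h _ _ _ _)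
  have e21 : ci b (LBp a c d) = 0 := (by rw [LB0 h]; exact ci_zero _)
  have e22 : br d (LBp a c b) = 0 := (by rw [LB0 h]; exact br_zero _)
  have e23 : CYp (br b d) a c = 0 := (CY0 h _ _ _)
  have e24 : br d (CYp a b c) = 0 := (by rw [CY0 h]; exact br_zero _)
  have e25 : G2p a c d b = 0 := (G20 h _ _ _ _)
  have e26 : JAp (ci a b) c d = 0 := (JA0 h _ _ _)
  have e27 : ci a (LBp c d b) = 0 := (by rw [LB0 h]; exact ci_zero _)
  have e28 : CYp (ci a b) c d = 0 := (CY0 h _ _ _)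
  have e29 : br d (JAp a b c) = 0 := (by rw [JA0 h]; exact br_zero _)
  have e30 : br b (JAp a c d) = 0 := (by rw [JA0 h]; exact br_zero _)
  have e31 : ci b (LBp c d a) = 0 := (by rw [LB0 h]; exact ci_zero _)
  have e32 : JAp (br a c) b d = 0 := (JA0 h _ _ _)
  have e33 : ci d (JAp a b c) = 0 := (by rw [JA0 h]; exact ci_zero _)
  have e34 : br b (CYp a c d) = 0 := (by rw [CY0 h]; exact br_zero _)
  rw [e0, e1, e2, e3, e4, e5, e6, e7, e8, e9, e10, e11, e12, e13, e14, e15, e16, e17, e18, e19, e20, e21, e22, e23, e24, e25, e26, e27, e28, e29, e30, e31, e32, e33, e34] at key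
  exact h.tf 1 _ (by norm_num) (by simpa using key)

theorem GY0 (h : Hyp A) (a b c d : A) : GYp a b c d = 0 := by
  have key : (1 : ℤ) • GYp a b c d =
      (-10 : ℤ) • (B1cp a c b d)
      + (1 : ℤ) • (JAp (ci b c) a d)
      + (1 : ℤ) • (br a (LBp c d b))
      + (-1 : ℤ) • (LBp (br b c) a d)
      + (1 : ℤ) • (LBp (ci b c) a d)
      + (-2 : ℤ) • (ci d (LBp a b c))
      + (1 : ℤ) • (CYp (ci b c) a d)
      + (1 : ℤ) • (LBp (br b c) d a)
      + (2 : ℤ) • (ci a (LBp b c d))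
      + (-3 : ℤ) • (ci b (CYp a c d))
      + (1 : ℤ) • (br b (JAp a c d))
      + (-1 : ℤ) • (B1cp a d b c)
      + (3 : ℤ) • (CYp (br a c) b d)
      + (3 : ℤ) • (LBp (br a c) d b)
      + (1 : ℤ) • (LBp b c (br a d))
      + (2 : ℤ) • (LBp (br b d) c a)
      + (-1 : ℤ) • (br b (LBp a d c))
      + (-1 : ℤ) • (JAp (ci c d) a b)
      + (1 : ℤ) • (LBp (ci a d) c b)
      + (1 : ℤ) • (CYp (ci a b) c d)
      + (-1 : ℤ) • (LBp (ci a b) c d)
      + (1 : ℤ) • (br d (CYp a b c))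
      + (1 : ℤ) • (LBp (br c d) b a)
      + (2 : ℤ) • (br b (CYp a c d))
      + (-1 : ℤ) • (CYp (br c d) a b)
      + (1 : ℤ) • (ci b (JAp a c d))
      + (-1 : ℤ) • (ci a (JAp b c d))
      + (-1 : ℤ) • (B1bp b c a d)
      + (-1 : ℤ) • (LBp (br a d) c b)
      + (-1 : ℤ) • (LBp (ci c d) a b)
      + (8 : ℤ) • (G1p a b c d)
      + (1 : ℤ) • (br d (JAp a b c))
      + (-3 : ℤ) • (ci d (CYp a b c))
      + (-2 : ℤ) • (B1a1p a b c d)
      + (-2 : ℤ) • (B1a1p c d a b)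
      + (1 : ℤ) • (B1bp a c b d)
      + (-1 : ℤ) • (JAp (br a c) b d)
      + (-1 : ℤ) • (CYp (ci a d) b c)
      + (-2 : ℤ) • (ci b (LBp c d a))
      + (-1 : ℤ) • (br a (LBp b c d))
      + (1 : ℤ) • (br d (LBp a b c))
      + (-1 : ℤ) • (LBp c d (br a b))
      + (2 : ℤ) • (ci c (LBp a d b))
      + (-2 : ℤ) • (LBp (br a c) b d)
      + (1 : ℤ) • (ci c (JAp a b d))
      + (1 : ℤ) • (CYp (ci c d) a b) := by
    simp only [GYp, G1p, G2p, GXp, GYp, hhp, LBp, JAp, CYp, B1cp, B1bp, B1a1p, AAp, I1p, B1dp, I3p, I2p, B1ap, aso, br, ci, mul_add, add_mul, mul_sub, sub_mul, smul_add, smul_sub]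
    abel
  have e0 : B1cp a c b d = 0 := (B1c0 h _ _ _ _)
  have e1 : JAp (ci b c) a d = 0 := (JA0 h _ _ _)
  have e2 : br a (LBp c d b) = 0 := (by rw [LB0 h]; exact br_zero _)
  have e3 : LBp (br b c) a d = 0 := (LB0 h _ _ _)
  have e4 : LBp (ci b c) a d = 0 := (LB0 h _ _ _)
  have e5 : ci d (LBp a b c) = 0 := (by rw [LB0 h]; exact ci_zero _)
  have e6 : CYp (ci b c) a d = 0 := (CY0 h _ _ _)
  have e7 : LBp (br b c) d a = 0 := (LB0 h _ _ _)
  have e8 : ci a (LBp b c d) = 0 := (by rw [LB0 h]; exact ci_zero _)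
  have e9 : ci b (CYp a c d) = 0 := (by rw [CY0 h]; exact ci_zero _)
  have e10 : br b (JAp a c d) = 0 := (by rw [JA0 h]; exact br_zero _)
  have e11 : B1cp a d b c = 0 := (B1c0 h _ _ _ _)
  have e12 : CYp (br a c) b d = 0 := (CY0 h _ _ _)
  have e13 : LBp (br a c) d b = 0 := (LB0 h _ _ _)
  have e14 : LBp b c (br a d) = 0 := (LB0 h _ _ _)
  have e15 : LBp (br b d) c a = 0 := (LB0 h _ _ _)
  have e16 : br b (LBp a d c) = 0 := (by rw [LB0 h]; exact br_zero _)
  have e17 : JAp (ci c d) a b = 0 := (JA0 h _ _ _)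
  have e18 : LBp (ci a d) c b = 0 := (LB0 h _ _ _)
  have e19 : CYp (ci a b) c d = 0 := (CY0 h _ _ _)
  have e20 : LBp (ci a b) c d = 0 := (LB0 h _ _ _)
  have e21 : br d (CYp a b c) = 0 := (by rw [CY0 h]; exact br_zero _)
  have e22 : LBp (br c d) b a = 0 := (LB0 h _ _ _)
  have e23 : br b (CYp a c d) = 0 := (by rw [CY0 h]; exact br_zero _)
  have e24 : CYp (br c d) a b = 0 := (CY0 h _ _ _)
  have e25 : ci b (JAp a c d) = 0 := (by rw [JA0 h]; exact ci_zero _)
  have e26 : ci a (JAp b c d) = 0 := (by rw [JA0 h]; exact ci_zero _)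
  have e27 : B1bp b c a d = 0 := (B1b0 h _ _ _ _)
  have e28 : LBp (br a d) c b = 0 := (LB0 h _ _ _)
  have e29 : LBp (ci c d) a b = 0 := (LB0 h _ _ _)
  have e30 : G1p a b c d = 0 := (G10 h _ _ _ _)
  have e31 : br d (JAp a b c) = 0 := (by rw [JA0 h]; exact br_zero _)
  have e32 : ci d (CYp a b c) = 0 := (by rw [CY0 h]; exact ci_zero _)
  have e33 : B1a1p a b c d = 0 := (B1a10 h _ _ _ _)
  have e34 : B1a1p c d a b = 0 := (B1a10 h _ _ _ _)
  have e35 : B1bp a c b d = 0 := (B1b0 h _ _ _ _)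
  have e36 : JAp (br a c) b d = 0 := (JA0 h _ _ _)
  have e37 : CYp (ci a d) b c = 0 := (CY0 h _ _ _)
  have e38 : ci b (LBp c d a) = 0 := (by rw [LB0 h]; exact ci_zero _)
  have e39 : br a (LBp b c d) = 0 := (by rw [LB0 h]; exact br_zero _)
  have e40 : br d (LBp a b c) = 0 := (by rw [LB0 h]; exact br_zero _)
  have e41 : LBp c d (br a b) = 0 := (LB0 h _ _ _)
  have e42 : ci c (LBp a d b) = 0 := (by rw [LB0 h]; exact ci_zero _)
  have e43 : LBp (br a c) b d = 0 := (LB0 h _ _ _)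
  have e44 : ci c (JAp a b d) = 0 := (by rw [JA0 h]; exact ci_zero _)
  have e45 : CYp (ci c d) a b = 0 := (CY0 h _ _ _)
  rw [e0, e1, e2, e3, e4, e5, e6, e7, e8, e9, e10, e11, e12, e13, e14, e15, e16, e17, e18, e19, e20, e21, e22, e23, e24, e25, e26, e27, e28, e29, e30, e31, e32, e33, e34, e35, e36, e37, e38, e39, e40, e41, e42, e43, e44, e45] at key
  exact h.tf 1 _ (by norm_num) (by simpa using key)

theorem AA0 (h : Hyp A) (a b c d : A) : AAp a b c d = 0 := by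
  have key : (12 : ℤ) • AAp a b c d =
      (2 : ℤ) • (LBp a b (ci c d))
      + (-1 : ℤ) • (ci d (LBp b c a))
      + (1 : ℤ) • (ci d (CYp a b c))
      + (3 : ℤ) • (B1a1p a d b c)
      + (-3 : ℤ) • (CYp (ci a d) b c)
      + (4 : ℤ) • (LBp a d (ci b c))
      + (2 : ℤ) • (LBp c d (ci a b))
      + (-3 : ℤ) • (CYp (ci b c) a d)
      + (-1 : ℤ) • (ci c (LBp a d b))
      + (-2 : ℤ) • (ci a (LBp c d b))
      + (4 : ℤ) • (LBp b c (ci a d))
      + (-7 : ℤ) • (ci b (LBp a d c))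
      + (3 : ℤ) • (B1a1p b c a d)
      + (-7 : ℤ) • (ci a (LBp b c d))
      + (-1 : ℤ) • (ci c (CYp a b d))
      + (-2 : ℤ) • (ci b (LBp c d a))
      + (-2 : ℤ) • (ci d (LBp a b c))
      + (5 : ℤ) • (ci a (CYp b c d))
      + (-5 : ℤ) • (ci b (CYp a c d))
      + (-2 : ℤ) • (ci c (LBp a b d)) := by
    simp only [AAp, G1p, G2p, GXp, GYp, hhp, LBp, JAp, CYp, B1cp, B1bp, B1a1p, AAp, I1p, B1dp, I3p, I2p, B1ap, aso, br, ci, mul_add, add_mul, mul_sub, sub_mul, smul_add, smul_sub]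
    abel
  have e0 : LBp a b (ci c d) = 0 := (LB0 h _ _ _)
  have e1 : ci d (LBp b c a) = 0 := (by rw [LB0 h]; exact ci_zero _)
  have e2 : ci d (CYp a b c) = 0 := (by rw [CY0 h]; exact ci_zero _)
  have e3 : B1a1p a d b c = 0 := (B1a10 h _ _ _ _)
  have e4 : CYp (ci a d) b c = 0 := (CY0 h _ _ _)
  have e5 : LBp a d (ci b c) = 0 := (LB0 h _ _ _)
  have e6 : LBp c d (ci a b) = 0 := (LB0 h _ _ _)
  have e7 : CYp (ci b c) a d = 0 := (CY0 h _ _ _)
  have e8 : ci c (LBp a d b) = 0 := (by rw [LB0 h]; exact ci_zero _)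
  have e9 : ci a (LBp c d b) = 0 := (by rw [LB0 h]; exact ci_zero _)
  have e10 : LBp b c (ci a d) = 0 := (LB0 h _ _ _)
  have e11 : ci b (LBp a d c) = 0 := (by rw [LB0 h]; exact ci_zero _)
  have e12 : B1a1p b c a d = 0 := (B1a10 h _ _ _ _)
  have e13 : ci a (LBp b c d) = 0 := (by rw [LB0 h]; exact ci_zero _)
  have e14 : ci c (CYp a b d) = 0 := (by rw [CY0 h]; exact ci_zero _)
  have e15 : ci b (LBp c d a) = 0 := (by rw [LB0 h]; exact ci_zero _)
  have e16 : ci d (LBp a b c) = 0 := (by rw [LB0 h]; exact ci_zero _)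
  have e17 : ci a (CYp b c d) = 0 := (by rw [CY0 h]; exact ci_zero _)
  have e18 : ci b (CYp a c d) = 0 := (by rw [CY0 h]; exact ci_zero _)
  have e19 : ci c (LBp a b d) = 0 := (by rw [LB0 h]; exact ci_zero _)
  rw [e0, e1, e2, e3, e4, e5, e6, e7, e8, e9, e10, e11, e12, e13, e14, e15, e16, e17, e18, e19] at key
  exact h.tf 12 _ (by norm_num) (by simpa using key)

theorem B1d0 (h : Hyp A) (a b c d : A) : B1dp a b c d = 0 := by
  have key : (6 : ℤ) • B1dp a b c d =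
      (9 : ℤ) • (AAp c d a b)
      + (-3 : ℤ) • (GYp c a d b)
      + (-2 : ℤ) • (GXp b d c a)
      + (2 : ℤ) • (GXp a c b d)
      + (-1 : ℤ) • (GXp c d b a)
      + (-1 : ℤ) • (GXp a d b c)
      + (1 : ℤ) • (GXp a d c b)
      + (3 : ℤ) • (GYp a c b d)
      + (-9 : ℤ) • (AAp a b c d)
      + (1 : ℤ) • (GXp a b c d) := by
    simp only [B1dp, G1p, G2p, GXp, GYp, hhp, LBp, JAp, CYp, B1cp, B1bp, B1a1p, AAp, I1p, B1dp, I3p, I2p, B1ap, aso, br, ci, mul_add, add_mul, mul_sub, sub_mul, smul_add, smul_sub]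
    abel
  have e0 : AAp c d a b = 0 := (AA0 h _ _ _ _)
  have e1 : GYp c a d b = 0 := (GY0 h _ _ _ _)
  have e2 : GXp b d c a = 0 := (GX0 h _ _ _ _)
  have e3 : GXp a c b d = 0 := (GX0 h _ _ _ _)
  have e4 : GXp c d b a = 0 := (GX0 h _ _ _ _)
  have e5 : GXp a d b c = 0 := (GX0 h _ _ _ _)
  have e6 : GXp a d c b = 0 := (GX0 h _ _ _ _)
  have e7 : GYp a c b d = 0 := (GY0 h _ _ _ _)
  have e8 : AAp a b c d = 0 := (AA0 h _ _ _ _)
  have e9 : GXp a b c d = 0 := (GX0 h _ _ _ _)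
  rw [e0, e1, e2, e3, e4, e5, e6, e7, e8, e9] at key
  exact h.tf 6 _ (by norm_num) (by simpa using key)

theorem I10 (h : Hyp A) (a b c d : A) : I1p a b c d = 0 := by
  have key : (1 : ℤ) • I1p a b c d =
      (-1 : ℤ) • (B1dp a c b d)
      + (-1 : ℤ) • (GYp b a d c)
      + (-5 : ℤ) • (AAp a c b d)
      + (-2 : ℤ) • (AAp b d a c) := by
    simp only [I1p, G1p, G2p, GXp, GYp, hhp, LBp, JAp, CYp, B1cp, B1bp, B1a1p, AAp, I1p, B1dp, I3p, I2p, B1ap, aso, br, ci, mul_add, add_mul, mul_sub, sub_mul, smul_add, smul_sub]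
    abel
  have e0 : B1dp a c b d = 0 := (B1d0 h _ _ _ _)
  have e1 : GYp b a d c = 0 := (GY0 h _ _ _ _)
  have e2 : AAp a c b d = 0 := (AA0 h _ _ _ _)
  have e3 : AAp b d a c = 0 := (AA0 h _ _ _ _)
  rw [e0, e1, e2, e3] at key
  exact h.tf 1 _ (by norm_num) (by simpa using key)

theorem I30 (h : Hyp A) (a b c d : A) : I3p a b c d = 0 := by
  have key : (1 : ℤ) • I3p a b c d =
      (1 : ℤ) • (I1p b a c d)
      + (1 : ℤ) • (I1p c a d b)
      + (-1 : ℤ) • (I1p a c b d)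
      + (1 : ℤ) • (GXp a c d b)
      + (-1 : ℤ) • (GXp b d a c) := by
    simp only [I3p, G1p, G2p, GXp, GYp, hhp, LBp, JAp, CYp, B1cp, B1bp, B1a1p, AAp, I1p, B1dp, I3p, I2p, B1ap, aso, br, ci, mul_add, add_mul, mul_sub, sub_mul, smul_add, smul_sub]
    abel
  have e0 : I1p b a c d = 0 := (I10 h _ _ _ _)
  have e1 : I1p c a d b = 0 := (I10 h _ _ _ _)
  have e2 : I1p a c b d = 0 := (I10 h _ _ _ _)
  have e3 : GXp a c d b = 0 := (GX0 h _ _ _ _)
  have e4 : GXp b d a c = 0 := (GX0 h _ _ _ _)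
  rw [e0, e1, e2, e3, e4] at key
  exact h.tf 1 _ (by norm_num) (by simpa using key)

theorem I20 (h : Hyp A) (a b c d : A) : I2p a b c d = 0 := by
  have key : (1 : ℤ) • I2p a b c d =
      (-1 : ℤ) • (I1p a b c d)
      + (-1 : ℤ) • (I1p b a c d)
      + (1 : ℤ) • (GXp a b d c) := by
    simp only [I2p, G1p, G2p, GXp, GYp, hhp, LBp, JAp, CYp, B1cp, B1bp, B1a1p, AAp, I1p, B1dp, I3p, I2p, B1ap, aso, br, ci, mul_add, add_mul, mul_sub, sub_mul, smul_add, smul_sub]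
    abel
  have e0 : I1p a b c d = 0 := (I10 h _ _ _ _)
  have e1 : I1p b a c d = 0 := (I10 h _ _ _ _)
  have e2 : GXp a b d c = 0 := (GX0 h _ _ _ _)
  rw [e0, e1, e2] at key
  exact h.tf 1 _ (by norm_num) (by simpa using key)

theorem B1a0 (h : Hyp A) (a b c d : A) : B1ap a b c d = 0 := by
  have key : (1 : ℤ) • B1ap a b c d =
      (-1 : ℤ) • (AAp a b c d)
      + (1 : ℤ) • (B1a1p c d a b) := by
    simp only [B1ap, G1p, G2p, GXp, GYp, hhp, LBp, JAp, CYp, B1cp, B1bp, B1a1p, AAp, I1p, B1dp, I3p, I2p, B1ap, aso, br, ci, mul_add, add_mul, mul_sub, sub_mul, smul_add, smul_sub]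
    abel
  have e0 : AAp a b c d = 0 := (AA0 h _ _ _ _)
  have e1 : B1a1p c d a b = 0 := (B1a10 h _ _ _ _)
  rw [e0, e1] at key
  exact h.tf 1 _ (by norm_num) (by simpa using key)

end Pool.Agent.PermMut
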