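import Pool.Agent.PermMut.Basic

set_option autoImplicit false
set_option linter.unusedSimpArgs false

namespace Pool.Agent.PermMut

universe v

variable {A : Type v} [NonUnitalNonAssocRing A]

lemma ci_comm (x y : A) : ci x y = ci y x := by simp only [ci]; abel
lemma br_skew (x y : A) : br x y = - br y x := by simp only [br]; abel
lemma br_self (x : A) : br x x = 0 := by simp only [br]; abel
lemma ci_add (x y z : A) : ci x (y + z) = ci x y + ci x z := by
  simp only [ci, mul_add, add_mul]; abel
lemma add_ci (x y z : A) : ci (x + y) z = ci x z + ci y z := by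
  simp only [ci, mul_add, add_mul]; abel
lemma ci_sub (x y z : A) : ci x (y - z) = ci x y - ci x z := by
  simp only [ci, mul_sub, sub_mul]; abel
lemma sub_ci (x y z : A) : ci (x - y) z = ci x z - ci y z := by
  simp only [ci, mul_sub, sub_mul]; abel
lemma ci_neg (x y : A) : ci x (-y) = - ci x y := by simp only [ci, mul_neg, neg_mul]; abel
lemma neg_ci (x y : A) : ci (-x) y = - ci x y := by simp only [ci, mul_neg, neg_mul]; abel
lemma zero_ci (x : A) : ci 0 x = 0 := by simp [ci]
lemma br_add (x y z : A) : br x (y + z) = br x y + br x z := by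
  simp only [br, mul_add, add_mul]; abel
lemma add_br (x y z : A) : br (x + y) z = br x z + br y z := by
  simp only [br, mul_add, add_mul]; abel
lemma br_sub (x y z : A) : br x (y - z) = br x y - br x z := by
  simp only [br, mul_sub, sub_mul]; abel
lemma sub_br (x y z : A) : br (x - y) z = br x z - br y z := by
  simp only [br, mul_sub, sub_mul]; abel
lemma br_neg (x y : A) : br x (-y) = - br x y := by simp only [br, mul_neg, neg_mul]; abel
lemma neg_br (x y : A) : br (-x) y = - br x y := by simp only [br, mul_neg, neg_mul]; abel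
lemma zero_br (x : A) : br 0 x = 0 := by simp [br]

lemma aso_skew (a b c : A) : aso a b c = - aso c b a := by
  simp only [aso]
  rw [ci_comm (ci a b) c, ci_comm a b, ci_comm (ci c b) a, ci_comm c b]; abel

lemma aso_cyc (a b c : A) : aso a b c + aso b c a + aso c a b = 0 := by
  simp only [aso]
  rw [ci_comm (ci a b) c, ci_comm (ci b c) a, ci_comm (ci c a) b, ci_comm a b, ci_comm b c,
    ci_comm c a]; abel

lemma aso_mid (a y c : A) : aso a y c = ci c (ci a y) - ci a (ci c y) := by
  simp only [aso]
  rw [ci_comm (ci a y) c, ci_comm y c]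

lemma leib (h : Hyp A) (a b c : A) : br (ci a b) c = ci a (br b c) + ci b (br a c) := by
  have := LB0 h a b c
  unfold LBp at this
  rw [sub_sub, sub_eq_zero] at this
  exact this

lemma leib' (h : Hyp A) (a b c : A) : br a (ci b c) = ci (br a b) c + ci b (br a c) := by
  rw [br_skew, leib h, br_skew c a, br_skew b a, ci_neg, ci_neg, ci_comm c]; abel

lemma jac (h : Hyp A) (a b c : A) : br a (br b c) = br (br a b) c + br b (br a c) := by
  have := JA0 h a b c
  unfold JAp at this
  rw [br_skew (br b c) a, br_skew (br c a) b, br_skew c a, br_neg, neg_neg] at this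
  rw [← sub_eq_zero, ← neg_eq_zero, ← this]; abel

lemma cyc (h : Hyp A) (a b c : A) : ci (br a b) c + ci (br b c) a + ci (br c a) b = 0 :=
  CY0 h a b c

/-- `a • [b,c] - c • [b,a]` rewritten. -/
lemma cyc' (h : Hyp A) (u b w : A) : ci u (br b w) - ci w (br b u) = ci b (br u w) := by
  have := cyc h u b w
  rw [ci_comm (br u b) w, ci_comm (br b w) u, ci_comm (br w u) b, br_skew u b, br_skew w u, ci_neg,
    ci_neg] at this
  rw [← sub_eq_zero, ← this]; abel

lemma k1 (h : Hyp A) (a b c d : A) : ci (br a b) (br c d) = 0 := B1c0 h a b c d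
lemma k2 (h : Hyp A) (a b c d : A) : ci a (br b (br c d)) = ci b (br a (br c d)) := by
  have := B1b0 h a b c d
  exact sub_eq_zero.mp this
lemma k3 (h : Hyp A) (a b c d : A) : br (br a b) (br c d) = 0 := B1d0 h a b c d
lemma k4 (h : Hyp A) (a b c d : A) :
    ci (ci a b) (br c d) = ci a (ci b (br c d)) + ci a (ci b (br c d)) := by
  have := B1a0 h a b c d
  exact sub_eq_zero.mp this
lemma k5 (h : Hyp A) (x y z t : A) : ci x (ci y (br z t)) = ci y (ci x (br z t)) := by
  have := AA0 h x y z t
  exact sub_eq_zero.mp this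
lemma i1 (h : Hyp A) (x a b c : A) : ci x (aso a b c) = ci b (aso a x c) := by
  have := I10 h x a b c
  exact sub_eq_zero.mp this
lemma i2 (h : Hyp A) (a x b c : A) :
    aso (ci a x) b c = ci a (aso x b c) + ci x (aso a b c) := by
  have := I20 h a x b c
  unfold I2p at this
  rw [sub_sub, sub_eq_zero] at this
  exact this
lemma i3 (h : Hyp A) (a b x c : A) :
    aso a (ci b x) c = ci x (aso a b c) + ci x (aso a b c) := by
  have := I30 h a b x c
  exact sub_eq_zero.mp this

/-- last slot -/
lemma i2' (h : Hyp A) (a b c x : A) :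
    aso a b (ci c x) = ci c (aso a b x) + ci x (aso a b c) := by
  rw [aso_skew, i2 h, aso_skew x b a, aso_skew c b a, ci_neg, ci_neg]; abel

lemma half (h : Hyp A) {x y : A} (e : x + x = y + y) : x = y := by
  have : (2 : ℤ) • (x - y) = 0 := by
    rw [two_smul, ← sub_eq_zero.mpr e]; abel
  exact sub_eq_zero.mp (h.tf 2 _ (by norm_num) this)

/-- the middle maps are derivations -/
lemma der (h : Hyp A) (u a b w : A) :
    aso u (ci a b) w = ci a (aso u b w) + ci b (aso u a w) := by
  rw [i3 h, i1 h a u b w]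

lemma aso_add_mid (a x y c : A) : aso a (x + y) c = aso a x c + aso a y c := by
  simp only [aso, ci_add, add_ci]; abel
lemma aso_sub_mid (a x y c : A) : aso a (x - y) c = aso a x c - aso a y c := by
  simp only [aso, ci_sub, sub_ci]; abel
lemma aso_add_left (x y b c : A) : aso (x + y) b c = aso x b c + aso y b c := by
  simp only [aso, add_ci]; abel
lemma aso_neg_left (x b c : A) : aso (-x) b c = - aso x b c := by
  simp only [aso, neg_ci]; abel
lemma aso_add_right (a b x y : A) : aso a b (x + y) = aso a b x + aso a b y := by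
  simp only [aso, ci_add]; abel

/-- `G(x;y,z) = x • (y • (u,z,w))` is symmetric in `y, z` -/
lemma gsym (h : Hyp A) (u w x y z : A) :
    ci x (ci y (aso u z w)) = ci x (ci z (aso u y w)) := by rw [i1 h y u z w]

lemma tt1 (h : Hyp A) (u w a b v : A) :
    aso (aso u a w) b v = ci v (ci b (aso u a w)) -
      (ci a (ci v (aso u b w)) + ci a (ci v (aso u b w))) := by
  have e : ci (aso u a w) (ci b v) = ci a (ci v (aso u b w)) + ci a (ci v (aso u b w)) := by
    rw [ci_comm, i1 h (ci b v) u a w, i3 h, ci_add]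
  conv_lhs => unfold aso
  change ci (ci (aso u a w) b) v - ci (aso u a w) (ci b v) = _
  rw [e, ci_comm _ v, ci_comm _ b]

lemma tt2 (h : Hyp A) (u w a b v : A) :
    aso u (aso a b v) w = aso (aso u a w) b v + aso a (aso u b w) v + aso a b (aso u v w) := by
  have e : aso a b v = ci (ci a b) v - ci a (ci b v) := rfl
  rw [e, aso_sub_mid, der h, der h, der h, der h]
  simp only [ci_add, add_ci]
  simp only [aso_mid, aso, ci_sub, sub_ci]
  simp only [ci_comm, ci_add, ci_sub]
  abel


/-- the composition of two middle maps vanishes (times four) -/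
lemma tt3 (h : Hyp A) (u w a v b : A) :
    aso u (aso a b v) w = (4 : ℤ) • aso a (aso u b w) v := by
  rw [tt2 h, tt1 h u w a b v, aso_skew a b (aso u v w), tt1 h u w v b a,
    aso_mid a (aso u b w) v]
  rw [gsym h u w v b a, gsym h u w a b v]
  abel

lemma tt4 (h : Hyp A) (u w a v b : A) : aso u (aso a b v) w = 0 := by
  have e1 := tt3 h u w a v b
  have e2 := tt3 h a v u w b
  rw [e2, smul_smul] at e1
  apply h.tf 15 _ (by norm_num)
  have : (15 : ℤ) • aso u (aso a b v) w = (4 * 4 : ℤ) • aso u (aso a b v) w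
      - aso u (aso a b v) w := by
    rw [show (15 : ℤ) = 4 * 4 - 1 by norm_num, sub_smul, one_smul]
  rw [this, ← e1, sub_self]

/-- full symmetry of `a • (b • (u,v,w))` in `a, b, v` -/
lemma gsym' (h : Hyp A) (u w a b v : A) :
    ci v (ci a (aso u b w)) = ci a (ci v (aso u b w)) := by
  have := tt4 h a v u w b
  rw [aso_mid] at this
  exact sub_eq_zero.mp this

lemma b2a (h : Hyp A) (a b u v w : A) :
    ci (ci a b) (aso u v w) = ci a (ci b (aso u v w)) + ci a (ci b (aso u v w)) := by
  rw [i1 h (ci a b) u v w, i3 h, ci_add, gsym h u w v b a, gsym' h u w a b v,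
    gsym h u w a v b]

/-- elements on which all multiplications behave as in the model -/
structure Good (z : A) : Prop where
  p3 : ∀ a b : A, ci a (br b z) = ci b (br a z)
  p4 : ∀ a b : A, ci (ci a b) z = ci a (ci b z) + ci a (ci b z)
  p5a : ∀ a b : A, ci (br a b) z = 0
  p5b : ∀ a b : A, br (br a b) z = 0

namespace Good

variable {z : A}

lemma p1 (h : Hyp A) (hz : Good z) (a b : A) : ci a (ci b z) = ci b (ci a z) := by
  apply half h
  rw [← hz.p4, ← hz.p4, ci_comm a b]

lemma p2 (h : Hyp A) (hz : Good z) (a b : A) : br a (br b z) = br b (br a z) := by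
  rw [jac h, hz.p5b, zero_add]

lemma p3' (h : Hyp A) (hz : Good z) (a b : A) : br b (ci a z) = ci a (br b z) := by
  rw [leib' h, hz.p5a, zero_add]

lemma mid (h : Hyp A) (hz : Good z) (a c : A) : aso a z c = 0 := by
  rw [aso_mid, hz.p1 h, sub_self]

lemma p5c (h : Hyp A) (hz : Good z) (a b c : A) : ci (aso a b c) z = 0 := by
  have e1 : aso a (ci z b) c = 0 := by rw [i3 h, hz.mid h, ci_zero, add_zero]
  rw [ci_comm z b, i3 h, ci_comm z] at e1
  exact half h (by rw [e1, add_zero])

end Good

lemma aso_br_left (h : Hyp A) (x y b c : A) : aso (br x y) b c = - ci b (ci c (br x y)) := by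
  have e : aso (br x y) b c = ci (ci (br x y) b) c - ci (br x y) (ci b c) := rfl
  rw [e, ci_comm (ci (br x y) b) c, ci_comm (br x y) b, ci_comm (br x y) (ci b c), k4 h,
    k5 h c b]; abel

lemma aso_br_mid (h : Hyp A) (a x y c : A) : aso a (br x y) c = 0 := by
  rw [aso_mid, k5 h, sub_self]

lemma aso_br_right (h : Hyp A) (a b x y : A) : aso a b (br x y) = ci b (ci a (br x y)) := by
  rw [aso_skew, aso_br_left h, neg_neg]

lemma br_aso (h : Hyp A) (b u v w : A) : br b (aso u v w) =
    aso (br b u) v w + aso u (br b v) w + aso u v (br b w) := by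
  have e : aso u v w = ci (ci u v) w - ci u (ci v w) := rfl
  rw [e, br_sub, leib' h, leib' h b u v, leib' h b u, leib' h b v]
  simp only [aso, ci_add, add_ci, ci_comm]
  abel

lemma br_aso' (h : Hyp A) (b u v w : A) : br b (aso u v w) = ci v (ci b (br u w)) := by
  rw [br_aso h, aso_br_left h, aso_br_mid h, aso_br_right h, ← cyc' h u b w, ci_sub]; abel

lemma Good.p5d (h : Hyp A) {z : A} (hz : Good z) (a b c : A) : br (aso a b c) z = 0 := by
  rw [br_skew, br_aso' h, ci_comm z, hz.p5a, ci_zero, neg_zero]

lemma good_br (h : Hyp A) (u v : A) : Good (br u v) where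
  p3 a b := k2 h a b u v
  p4 a b := k4 h a b u v
  p5a a b := k1 h a b u v
  p5b a b := k3 h a b u v

lemma Good.ci (h : Hyp A) {z : A} (hz : Good z) (c : A) : Good (ci c z) where
  p3 a b := by
    rw [hz.p3' h c b, hz.p3' h c a, (good_br h b z).p1 h, hz.p3 a b,
      (good_br h a z).p1 h]
  p4 a b := by
    have e : PermMut.ci c (PermMut.ci a (PermMut.ci b z)) =
        PermMut.ci a (PermMut.ci c (PermMut.ci b z)) := by
      have e1 : aso a (PermMut.ci b z) c = 0 := by
        rw [ci_comm b z, i3 h, hz.mid h, ci_zero, add_zero]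
      rw [aso_mid] at e1
      exact sub_eq_zero.mp e1
    rw [hz.p1 h (PermMut.ci a b) c, hz.p4, ci_add, e, hz.p1 h c b]
  p5a a b := by rw [hz.p1 h, hz.p5a, ci_zero]
  p5b a b := by
    rw [leib' h, hz.p5a, hz.p5b, ci_zero, add_zero]

lemma good_aso (h : Hyp A) (u v w : A) : Good (aso u v w) where
  p3 a b := by
    have g := good_br h u w
    rw [br_aso' h, br_aso' h, g.p1 h v b, (g.ci h v).p1 h a b, g.p1 h a v]
  p4 a b := b2a h a b u v w
  p5a a b := by rw [ci_comm]; exact (good_br h a b).p5c h u v w
  p5b a b := by rw [br_skew, (good_br h a b).p5d h, neg_zero]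

/-- `z` kills every good element -/
def Kills (z : A) : Prop := ∀ y : A, Good y → ci z y = 0 ∧ br z y = 0

lemma kills_br (h : Hyp A) (u v : A) : Kills (br u v) := fun _ hy => ⟨hy.p5a u v, hy.p5b u v⟩
lemma kills_aso (h : Hyp A) (u v w : A) : Kills (aso u v w) :=
  fun _ hy => ⟨hy.p5c h u v w, hy.p5d h u v w⟩
lemma Kills.ci (h : Hyp A) {z : A} (hz : Kills z) (a : A) : Kills (ci a z) := by
  intro y hy
  constructor
  · rw [hy.p4, (hz y hy).1, ci_zero, add_zero]
  · rw [leib h, (hz y hy).2, (hz _ (good_br h a y)).1, ci_zero, add_zero]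
lemma Kills.add {z w : A} (hz : Kills z) (hw : Kills w) : Kills (z + w) := by
  intro y hy
  rw [add_ci, add_br, (hz y hy).1, (hz y hy).2, (hw y hy).1, (hw y hy).2]
  simp
lemma kills_zero : Kills (0 : A) := by
  intro y _
  rw [zero_ci, zero_br]; simp

lemma good_zero : Good (0 : A) := by
  constructor <;> intros <;> simp [ci_zero, br_zero]

lemma Good.add {z w : A} (hz : Good z) (hw : Good w) : Good (z + w) where
  p3 a b := by rw [br_add, ci_add, br_add, ci_add, hz.p3, hw.p3]
  p4 a b := by rw [ci_add, ci_add, ci_add, hz.p4, hw.p4]; abel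
  p5a a b := by rw [ci_add, hz.p5a, hw.p5a, add_zero]
  p5b a b := by rw [br_add, hz.p5b, hw.p5b, add_zero]

end Pool.Agent.PermMut
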