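import Pool.Agent.PermMut.Span

set_option autoImplicit false
set_option linter.unusedSimpArgs false
set_option linter.unusedVariables false
set_option linter.unusedSectionVars false

namespace Pool.Agent.PermMut

universe u v

/-- basis of the free perm algebra: a multiset of letters and a last letter -/
@[ext] structure Mag where
  m : Multiset ℕ
  k : ℕ

instance : Mul Mag := ⟨fun a b => ⟨a.k ::ₘ (a.m + b.m), b.k⟩⟩

lemma Mag.mul_def (a b : Mag) : a * b = ⟨a.k ::ₘ (a.m + b.m), b.k⟩ := rfl
lemma Mag.mk_mul (m n : Multiset ℕ) (k l : ℕ) :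
    (⟨m, k⟩ : Mag) * ⟨n, l⟩ = ⟨k ::ₘ (m + n), l⟩ := rfl

instance : Semigroup Mag where
  mul_assoc a b c := by
    ext1
    · simp only [Mag.mul_def, Multiset.cons_add, Multiset.add_cons, add_assoc]
      rw [Multiset.cons_swap]
    · rfl

lemma Mag.left_comm (a b c : Mag) : a * b * c = b * a * c := by
  ext1
  · simp only [Mag.mul_def, Multiset.cons_add, Multiset.add_cons]
    rw [Multiset.cons_swap, add_comm a.m b.m]
  · rfl

variable (F : Type u) [Field F] [CharZero F]

/-- the free perm algebra on the letters -/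
abbrev PP := MonoidAlgebra F Mag

open MonoidAlgebra in
lemma PP_perm (a b c : PP F) : a * b * c = b * a * c := by
  induction a using MonoidAlgebra.induction_linear with
  | zero => simp
  | add x y hx hy => simp only [add_mul, mul_add, hx, hy]
  | single m r =>
    induction b using MonoidAlgebra.induction_linear with
    | zero => simp
    | add x y hx hy => simp only [add_mul, mul_add, hx, hy]
    | single n s =>
      induction c using MonoidAlgebra.induction_linear with
      | zero => simp
      | add x y hx hy => simp only [add_mul, mul_add, hx, hy]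
      | single l t =>
        simp only [single_mul_single]
        rw [Mag.left_comm, mul_comm r s]

/-- basis elements -/
noncomputable def bs (μ : Multiset ℕ) (k : ℕ) : PP F := MonoidAlgebra.single ⟨μ, k⟩ 1

lemma bs_mul (μ ν : Multiset ℕ) (k l : ℕ) : bs F μ k * bs F ν l = bs F (k ::ₘ (μ + ν)) l := by
  unfold bs
  rw [MonoidAlgebra.single_mul_single, Mag.mk_mul, one_mul]

/-- the two parameters -/
noncomputable def pp : PP F := (2⁻¹ : F) • (bs F 0 0 + bs F 0 1)
noncomputable def qq : PP F := (2⁻¹ : F) • (bs F 0 1 - bs F 0 0)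

lemma pp_sub_qq : pp F - qq F = bs F 0 0 := by
  unfold pp qq
  rw [← smul_sub]
  have : bs F 0 0 + bs F 0 1 - (bs F 0 1 - bs F 0 0) = (2 : F) • bs F 0 0 := by
    rw [two_smul]; abel
  rw [this, smul_smul, inv_mul_cancel₀ (by norm_num), one_smul]

lemma pp_add_qq : pp F + qq F = bs F 0 1 := by
  unfold pp qq
  rw [← smul_add]
  have : bs F 0 0 + bs F 0 1 + (bs F 0 1 - bs F 0 0) = (2 : F) • bs F 0 1 := by
    rw [two_smul]; abel
  rw [this, smul_smul, inv_mul_cancel₀ (by norm_num), one_smul]

/-- differences of basis elements with the same content -/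
noncomputable def DD (μ : Multiset ℕ) (a b : ℕ) : PP F := bs F (a ::ₘ μ) b - bs F (b ::ₘ μ) a

lemma DD_mul (μ : Multiset ℕ) (a b : ℕ) (w : PP F) : DD F μ a b * w = 0 := by
  induction w using MonoidAlgebra.induction_linear with
  | zero => simp
  | add x y hx hy => rw [mul_add, hx, hy, add_zero]
  | single n s =>
    unfold DD bs
    rw [sub_mul, MonoidAlgebra.single_mul_single, MonoidAlgebra.single_mul_single, sub_eq_zero]
    congr 1
    rw [Mag.mul_def, Mag.mul_def]
    simp only [Multiset.cons_add]
    rw [Multiset.cons_swap]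

lemma mul_DD (μ ν : Multiset ℕ) (k a b : ℕ) :
    bs F ν k * DD F μ a b = DD F (k ::ₘ (ν + μ)) a b := by
  unfold DD
  rw [mul_sub, bs_mul, bs_mul, Multiset.add_cons, Multiset.add_cons, Multiset.cons_swap k a,
    Multiset.cons_swap k b]

/-- images of the operations -/
lemma img_ci (u v : PP F) :
    (u * pp F * v - v * qq F * u) + (v * pp F * u - u * qq F * v) =
      u * bs F 0 0 * v + v * bs F 0 0 * u := by
  rw [← pp_sub_qq]
  simp only [mul_sub, sub_mul]
  abel

lemma img_br (u v : PP F) :
    (u * pp F * v - v * qq F * u) - (v * pp F * u - u * qq F * v) =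
      u * bs F 0 1 * v - v * bs F 0 1 * u := by
  rw [← pp_add_qq]
  simp only [mul_add, add_mul]
  abel

/-- linear extension of a function on the basis -/
noncomputable def ext {M : Type*} [AddCommMonoid M] [Module F M] (ψ : Mag → M) : PP F →ₗ[F] M :=
  (Finsupp.linearCombination F ψ).comp (MonoidAlgebra.coeffLinearEquiv F).toLinearMap

lemma ext_bs {M : Type*} [AddCommMonoid M] [Module F M] (ψ : Mag → M) (μ : Multiset ℕ) (k : ℕ) :
    ext F ψ (bs F μ k) = ψ ⟨μ, k⟩ := by
  unfold ext bs
  simp

section Phi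

variable {A : Type v} [NonUnitalNonAssocRing A] [Module F A] [IsScalarTower F A A]
  [SMulCommClass F A A] (g : ℕ → A)
variable (Φ : A →ₗ[F] PP F) (hmul : ∀ x y, Φ (x * y) = Φ x * pp F * Φ y - Φ y * qq F * Φ x)
  (hgen : ∀ i, Φ (g i) = bs F 0 (i + 2))

include hmul in
lemma Phi_ci (x y : A) : Φ (ci x y) = Φ x * bs F 0 0 * Φ y + Φ y * bs F 0 0 * Φ x := by
  unfold ci
  rw [map_add, hmul, hmul, img_ci]

include hmul in
lemma Phi_br (x y : A) : Φ (br x y) = Φ x * bs F 0 1 * Φ y - Φ y * bs F 0 1 * Φ x := by
  unfold br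
  rw [map_sub, hmul, hmul, img_br]

include hmul hgen in
lemma Phi_br_gen (x y : ℕ) : Φ (br (g x) (g y)) = DD F {1} (x + 2) (y + 2) := by
  rw [Phi_br F Φ hmul, hgen, hgen]
  simp only [bs_mul, DD]
  congr 2
  · simp only [← Multiset.singleton_add]; abel
  · simp only [← Multiset.singleton_add]; abel

include hmul hgen in
lemma Phi_aso_gen (x b y : ℕ) :
    Φ (aso (g x) (g b) (g y)) = DD F {0, 0, b + 2} (x + 2) (y + 2) := by
  unfold aso
  rw [map_sub]
  simp only [Phi_ci F Φ hmul, hgen, mul_add, add_mul, bs_mul, DD, Multiset.insert_eq_cons,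
    ← Multiset.singleton_add]
  simp only [add_zero, zero_add]
  simp only [add_assoc, add_comm, add_left_comm]
  abel

include hmul hgen in
lemma Phi_ci_DD (c : ℕ) (z : A) (μ : Multiset ℕ) (a b : ℕ) (hz : Φ z = DD F μ a b) :
    Φ (ci (g c) z) = DD F (0 ::ₘ (c + 2) ::ₘ μ) a b := by
  rw [Phi_ci F Φ hmul, hz, hgen, mul_assoc (DD F μ a b), DD_mul, add_zero, bs_mul, mul_DD]
  congr 1

include hmul hgen in
lemma Phi_br_DD (c : ℕ) (z : A) (μ : Multiset ℕ) (a b : ℕ) (hz : Φ z = DD F μ a b) :
    Φ (br (g c) z) = DD F (1 ::ₘ (c + 2) ::ₘ μ) a b := by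
  rw [Phi_br F Φ hmul, hz, hgen, mul_assoc (DD F μ a b), DD_mul, sub_zero, bs_mul, mul_DD]
  congr 1

/-- shifted content of a list together with the exponents of the two parameters -/
def ML (l : List ℕ) (i j : ℕ) : Multiset ℕ :=
  (l.map (· + 2) : Multiset ℕ) + Multiset.replicate i 0 + Multiset.replicate j 1

include hmul hgen in
lemma Phi_Sop (l : List ℕ) (j : ℕ) (hj : j ≤ l.length) (z : A) (μ : Multiset ℕ) (a b : ℕ)
    (hz : Φ z = DD F μ a b) :
    Φ (Sop g l j z) = DD F (ML l (l.length - j) j + μ) a b := by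
  induction l generalizing j with
  | nil =>
    have : j = 0 := by simpa using hj
    subst this
    rw [Sop_nil, hz]
    simp [ML]
  | cons c l ih =>
    cases j with
    | zero =>
      rw [Sop_cons_zero, Phi_ci_DD F g Φ hmul hgen c _ _ a b (ih 0 (Nat.zero_le _))]
      congr 1
      simp only [ML, List.length_cons, Nat.sub_zero, List.map_cons, ← Multiset.cons_coe,
        Multiset.replicate_succ, ← Multiset.singleton_add]
      abel
    | succ j =>
      have hj' : j ≤ l.length := by simpa using hj
      rw [Sop_cons_succ, Phi_br_DD F g Φ hmul hgen c _ _ a b (ih j hj')]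
      congr 1
      have : (c :: l).length - (j + 1) = l.length - j := by simp
      rw [this]
      simp only [ML, List.map_cons, ← Multiset.cons_coe,
        Multiset.replicate_succ, ← Multiset.singleton_add]
      abel

include hmul hgen in
lemma Phi_EL (l : List ℕ) (j x y : ℕ) (hv : Valid l j) :
    Φ (EL g l j x y) = DD F (ML l (l.length + 1 - j) j) (x + 2) (y + 2) := by
  cases j with
  | succ j =>
    rw [EL_succ, Phi_Sop F g Φ hmul hgen l j (by have := hv.1; omega) _ _ _ _
      (Phi_br_gen F g Φ hmul hgen x y)]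
    congr 1
    have : l.length + 1 - (j + 1) = l.length - j := by omega
    rw [this]
    simp only [ML, Multiset.replicate_succ, ← Multiset.singleton_add]
    abel
  | zero =>
    cases l with
    | nil => exact absurd rfl (hv.2 rfl)
    | cons b l =>
      rw [EL_cons_zero, Phi_Sop F g Φ hmul hgen l 0 (Nat.zero_le _) _ _ _ _
        (Phi_aso_gen F g Φ hmul hgen x b y)]
      congr 1
      simp only [ML, List.length_cons, Nat.sub_zero, List.map_cons, ← Multiset.cons_coe,
        Multiset.replicate_succ, ← Multiset.singleton_add, Multiset.insert_eq_cons]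
      abel

/-- recovered letters of a multiset -/
def letters (μ : Multiset ℕ) : Multiset ℕ := (μ.filter (fun i => 2 ≤ i)).map (fun i => i - 2)

lemma letters_add (μ ν : Multiset ℕ) : letters (μ + ν) = letters μ + letters ν := by
  simp [letters, Multiset.filter_add]

lemma letters_cons (a : ℕ) (μ : Multiset ℕ) : letters ((a + 2) ::ₘ μ) = a ::ₘ letters μ := by
  simp [letters]

lemma letters_zero_cons (μ : Multiset ℕ) : letters (0 ::ₘ μ) = letters μ := by
  simp [letters]
lemma letters_one_cons (μ : Multiset ℕ) : letters (1 ::ₘ μ) = letters μ := by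
  simp [letters]

lemma letters_ML (l : List ℕ) (i j : ℕ) : letters (ML l i j) = (l : Multiset ℕ) := by
  unfold ML
  rw [letters_add, letters_add]
  have e1 : letters (Multiset.replicate i 0) = 0 := by
    induction i with
    | zero => rfl
    | succ i ih => rw [Multiset.replicate_succ, letters_zero_cons, ih]
  have e2 : letters (Multiset.replicate j 1) = 0 := by
    induction j with
    | zero => rfl
    | succ i ih => rw [Multiset.replicate_succ, letters_one_cons, ih]
  have e3 : letters ((l.map (· + 2) : List ℕ) : Multiset ℕ) = (l : Multiset ℕ) := by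
    induction l with
    | nil => rfl
    | cons a l ih =>
      rw [List.map_cons, ← Multiset.cons_coe, letters_cons, ih, Multiset.cons_coe]
  rw [e1, e2, e3, add_zero, add_zero]

lemma count_ML (l : List ℕ) (i j a : ℕ) : Multiset.count 1 ((a + 2) ::ₘ ML l i j) = j := by
  unfold ML
  rw [Multiset.count_cons_of_ne (by omega), Multiset.count_add, Multiset.count_add,
    Multiset.count_replicate, Multiset.count_replicate]
  have : Multiset.count 1 ((l.map (· + 2) : List ℕ) : Multiset ℕ) = 0 := by
    rw [Multiset.count_eq_zero]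
    simp
  rw [this]
  simp

/-- a chosen element of a multiset -/
noncomputable def rep (S : Multiset ℕ) : ℕ := by
  classical
  exact if h : ∃ a, a ∈ S then Classical.choose h else 0

lemma rep_mem {S : Multiset ℕ} {a : ℕ} (h : a ∈ S) : rep S ∈ S := by
  classical
  have h' : ∃ a, a ∈ S := ⟨a, h⟩
  unfold rep
  rw [dif_pos h']
  exact Classical.choose_spec h'

/-- first retraction on the basis -/
noncomputable def psi0 (b : Mag) : A :=
  if rep ((b.k - 2) ::ₘ letters b.m) = b.k - 2 then 0
  else EL g ((letters b.m).erase (rep ((b.k - 2) ::ₘ letters b.m))).toList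
    (Multiset.count 1 b.m) (rep ((b.k - 2) ::ₘ letters b.m)) (b.k - 2)

lemma psi0_eval (l : List ℕ) (i j x y : ℕ) :
    psi0 g ⟨(x + 2) ::ₘ ML l i j, y + 2⟩ =
      if rep (y ::ₘ x ::ₘ (l : Multiset ℕ)) = y then 0
      else EL g ((x ::ₘ (l : Multiset ℕ)).erase (rep (y ::ₘ x ::ₘ (l : Multiset ℕ)))).toList
        j (rep (y ::ₘ x ::ₘ (l : Multiset ℕ))) y := by
  unfold psi0
  simp only [letters_cons, letters_ML, count_ML, Nat.add_sub_cancel]

lemma EL_toList (h : Hyp A) {S : Multiset ℕ} {l : List ℕ} (e : S = (l : Multiset ℕ))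
    (j x y : ℕ) : EL g S.toList j x y = EL g l j x y := by
  apply EL_perm g h
  rw [← Multiset.coe_eq_coe, Multiset.coe_toList, e]

include hmul hgen in
lemma psi0_EL (h : Hyp A) (l : List ℕ) (j x y : ℕ) (hv : Valid l j) :
    ext F (psi0 g) (Φ (EL g l j x y)) = EL g l j x y := by
  rw [Phi_EL F g Φ hmul hgen l j x y hv, DD, map_sub, ext_bs, ext_bs, psi0_eval, psi0_eval,
    Multiset.cons_swap x y]
  have hmem : rep (y ::ₘ x ::ₘ (l : Multiset ℕ)) ∈ y ::ₘ x ::ₘ (l : Multiset ℕ) :=
    rep_mem (a := y) (by simp)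
  generalize rep (y ::ₘ x ::ₘ (l : Multiset ℕ)) = r at hmem ⊢
  by_cases hxy : x = y
  · subst hxy
    rw [sub_self, EL_self g h]
  by_cases hry : r = y
  · subst hry
    rw [if_pos rfl, if_neg (fun e => hxy e.symm), zero_sub, Multiset.erase_cons_head,
      EL_toList g h rfl, ← EL_skew]
  by_cases hrx : r = x
  · subst hrx
    rw [if_neg hry, if_pos rfl, sub_zero, Multiset.erase_cons_head,
      EL_toList g h rfl]
  · rw [if_neg hry, if_neg hrx]
    have hr : r ∈ l := by
      simpa [hry, hrx] using hmem
    obtain ⟨l', hl'⟩ : ∃ l' : List ℕ, (l : Multiset ℕ) = ((r :: l' : List ℕ) : Multiset ℕ) := by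
      obtain ⟨t, ht⟩ := Multiset.exists_cons_of_mem (show r ∈ (l : Multiset ℕ) from hr)
      refine ⟨t.toList, ?_⟩
      rw [ht, ← Multiset.cons_coe, Multiset.coe_toList]
    have e1 : ∀ z, z ≠ r → (z ::ₘ (l : Multiset ℕ)).erase r = ((z :: l' : List ℕ) : Multiset ℕ) := by
      intro z hz
      rw [hl', ← Multiset.cons_coe, ← Multiset.cons_coe, Multiset.cons_swap,
        Multiset.erase_cons_head]
    rw [EL_toList g h (e1 x (Ne.symm hrx)), EL_toList g h (e1 y (Ne.symm hry))]
    rw [EL_perm g h (Multiset.coe_eq_coe.mp hl')]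
    have := EL_cyc g h l' j x y r
    rw [EL_skew g (x :: l') j y r] at this
    rw [← sub_eq_zero, ← neg_eq_zero, ← this]
    abel

include hmul hgen in
lemma psi0_KK (h : Hyp A) {z : A} (hz : z ∈ KK F g) : ext F (psi0 g) (Φ z) = z := by
  induction hz using Submodule.span_induction with
  | mem z hz => obtain ⟨l, j, x, y, hv, rfl⟩ := hz; exact psi0_EL F g Φ hmul hgen h l j x y hv
  | zero => simp
  | add x y _ _ hx hy => rw [map_add, map_add, hx, hy]
  | smul c x _ hx => rw [map_smul, map_smul, hx]

/-! the commutative part -/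

/-- content of a basis element -/
def cont (b : Mag) : Multiset ℕ := letters (b.k ::ₘ b.m)

/-- the content map -/
noncomputable def bar : PP F →ₗ[F] (Multiset ℕ →₀ F) :=
  ext F (fun b => Finsupp.single (cont b) (1 : F))

lemma bar_bs (μ : Multiset ℕ) (k : ℕ) :
    bar F (bs F μ k) = Finsupp.single (letters (k ::ₘ μ)) 1 := by
  unfold bar
  rw [ext_bs]; rfl

lemma bar_DD (μ : Multiset ℕ) (a b : ℕ) : bar F (DD F μ a b) = 0 := by
  rw [DD, map_sub, bar_bs, bar_bs, Multiset.cons_swap, sub_self]

lemma bar_ci (c : ℕ) (v : PP F) :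
    bar F (bs F 0 (c + 2) * bs F 0 0 * v + v * bs F 0 0 * bs F 0 (c + 2)) =
      (2 : F) • Finsupp.lmapDomain F F (fun S => c ::ₘ S) (bar F v) := by
  induction v using MonoidAlgebra.induction_linear with
  | zero => simp
  | add x y hx hy =>
    simp only [mul_add, add_mul, map_add, smul_add] at hx hy ⊢
    rw [← hx, ← hy]
    abel
  | single m r =>
    have e : (MonoidAlgebra.single m r : PP F) = r • bs F m.m m.k := by
      unfold bs
      rw [MonoidAlgebra.smul_single]; simp
    rw [e]
    simp only [mul_smul_comm, smul_mul_assoc, map_add, map_smul, bs_mul, bar_bs]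
    rw [Finsupp.lmapDomain_apply, Finsupp.mapDomain_single]
    have e1 : letters (m.k ::ₘ 0 ::ₘ ((c + 2) ::ₘ (0 + 0) + m.m)) = c ::ₘ letters (m.k ::ₘ m.m) := by
      have : m.k ::ₘ 0 ::ₘ ((c + 2) ::ₘ (0 + 0) + m.m) = 0 ::ₘ (c + 2) ::ₘ (m.k ::ₘ m.m) := by
        simp only [← Multiset.singleton_add]; abel
      rw [this, letters_zero_cons, letters_cons]
    have e2 : letters ((c + 2) ::ₘ 0 ::ₘ (m.k ::ₘ (m.m + 0) + 0)) = c ::ₘ letters (m.k ::ₘ m.m) := by
      rw [letters_cons, letters_zero_cons]
      simp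
    rw [e1, e2, two_smul]

include hmul hgen in
lemma bar_Sop (l : List ℕ) (x : ℕ) :
    bar F (Φ (Sop g l 0 (g x))) = ((2 : F) ^ l.length) • Finsupp.single (x ::ₘ (l : Multiset ℕ)) 1 := by
  induction l with
  | nil =>
    rw [Sop_nil, hgen, bar_bs, letters_cons]
    simp [letters]
  | cons c l ih =>
    rw [Sop_cons_zero, Phi_ci F Φ hmul, hgen, bar_ci, ih, map_smul, Finsupp.lmapDomain_apply,
      Finsupp.mapDomain_single, smul_smul, ← pow_succ', List.length_cons, Multiset.cons_swap,
      Multiset.cons_coe]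

include hmul hgen in
lemma bar_KK {z : A} (hz : z ∈ KK F g) : bar F (Φ z) = 0 := by
  induction hz using Submodule.span_induction with
  | mem z hz =>
    obtain ⟨l, j, x, y, hv, rfl⟩ := hz
    rw [Phi_EL F g Φ hmul hgen l j x y hv, bar_DD]
  | zero => simp
  | add x y _ _ hx hy => rw [map_add, map_add, hx, hy, add_zero]
  | smul c x _ hx => rw [map_smul, map_smul, hx, smul_zero]

/-- second retraction -/
noncomputable def psi1 : (Multiset ℕ →₀ F) →ₗ[F] A :=
  Finsupp.linearCombination F (fun S => ((2 : F)⁻¹ ^ (Multiset.card S - 1)) • CL g S.toList)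

variable (hA : ∀ z : A, z ∈ Submodule.span F {w | Word g w})

include hmul hgen hA in
lemma psi1_spec (h : Hyp A) (z : A) : z - psi1 F g (bar F (Φ z)) ∈ KK F g := by
  have hz := UU_top F g hA h z
  induction hz using Submodule.span_induction with
  | mem z hz =>
    rcases hz with ⟨l, x, rfl⟩ | hz
    · rw [bar_Sop F g Φ hmul hgen, map_smul]
      unfold psi1
      rw [Finsupp.linearCombination_single, one_smul, smul_smul]
      have : (2 : F) ^ l.length * 2⁻¹ ^ (Multiset.card (x ::ₘ (l : Multiset ℕ)) - 1) = 1 := by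
        rw [Multiset.card_cons, Multiset.coe_card, Nat.add_sub_cancel, ← mul_pow,
          mul_inv_cancel₀ (by norm_num), one_pow]
      rw [this, one_smul]
      have e : Sop g l 0 (g x) = CL g (x :: l) := rfl
      rw [e]
      apply CL_perm F g hA h
      rw [← Multiset.coe_eq_coe, Multiset.coe_toList, Multiset.cons_coe]
    · rw [bar_KK F g Φ hmul hgen hz, map_zero, sub_zero]
      exact hz
  | zero => simp
  | add x y _ _ hx hy =>
    have := (KK F g).add_mem hx hy
    simp only [map_add] at this ⊢
    convert this using 1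
    abel
  | smul c x _ hx =>
    have := (KK F g).smul_mem c hx
    simp only [map_smul] at this ⊢
    rwa [smul_sub] at this

include hmul hgen hA in
theorem Phi_injective (h : Hyp A) (z : A) (hz : Φ z = 0) : z = 0 := by
  have h1 := psi1_spec F g Φ hmul hgen hA h z
  rw [hz, map_zero, map_zero, sub_zero] at h1
  rw [← psi0_KK F g Φ hmul hgen h h1, hz, map_zero]

end Phi

end Pool.Agent.PermMut
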