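import Pool.Agent.PermMut.Derived

set_option autoImplicit false
set_option linter.unusedSimpArgs false
set_option linter.unusedVariables false
set_option linter.unusedSectionVars false

namespace Pool.Agent.PermMut

universe u v

variable {A : Type v} [NonUnitalNonAssocRing A]

/-- apply brackets with the first `j` letters and anticommutators with the remaining ones -/
def Sop (g : ℕ → A) : List ℕ → ℕ → A → A
  | [], _, z => z
  | a :: l, 0, z => ci (g a) (Sop g l 0 z)
  | a :: l, j + 1, z => br (g a) (Sop g l j z)

section sop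

variable (g : ℕ → A)

lemma Sop_nil (j : ℕ) (z : A) : Sop g [] j z = z := by cases j <;> rfl
lemma Sop_cons_zero (a : ℕ) (l : List ℕ) (z : A) :
    Sop g (a :: l) 0 z = ci (g a) (Sop g l 0 z) := rfl
lemma Sop_cons_succ (a : ℕ) (l : List ℕ) (j : ℕ) (z : A) :
    Sop g (a :: l) (j + 1) z = br (g a) (Sop g l j z) := rfl

lemma Sop_good (h : Hyp A) (l : List ℕ) (j : ℕ) {z : A} (hz : Good z) : Good (Sop g l j z) := by
  induction l generalizing j with
  | nil => rw [Sop_nil]; exact hz
  | cons a l ih =>
    cases j with
    | zero => exact (ih 0).ci h _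
    | succ j => exact good_br h _ _

lemma Sop_zero (l : List ℕ) (j : ℕ) : Sop g l j 0 = 0 := by
  induction l generalizing j with
  | nil => rw [Sop_nil]
  | cons a l ih =>
    cases j with
    | zero => rw [Sop_cons_zero, ih, ci_zero]
    | succ j => rw [Sop_cons_succ, ih, br_zero]

lemma Sop_add (l : List ℕ) (j : ℕ) (z w : A) : Sop g l j (z + w) = Sop g l j z + Sop g l j w := by
  induction l generalizing j with
  | nil => rw [Sop_nil, Sop_nil, Sop_nil]
  | cons a l ih =>
    cases j with
    | zero => simp only [Sop_cons_zero, ih, ci_add]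
    | succ j => simp only [Sop_cons_succ, ih, br_add]

lemma Sop_neg (l : List ℕ) (j : ℕ) (z : A) : Sop g l j (-z) = - Sop g l j z := by
  have := Sop_add g l j z (-z)
  rw [add_neg_cancel, Sop_zero] at this
  exact (neg_eq_of_add_eq_zero_right this.symm).symm

lemma Sop_perm (h : Hyp A) {l l' : List ℕ} (p : l.Perm l') (j : ℕ) {z : A} (hz : Good z) :
    Sop g l j z = Sop g l' j z := by
  induction p generalizing j with
  | nil => rfl
  | cons a _ ih =>
    cases j with
    | zero => rw [Sop_cons_zero, Sop_cons_zero, ih]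
    | succ j => rw [Sop_cons_succ, Sop_cons_succ, ih]
  | swap a b l =>
    rcases j with _ | _ | j
    · simp only [Sop_cons_zero]
      exact (Sop_good g h l 0 hz).p1 h _ _
    · change br (g b) (ci (g a) (Sop g l 0 z)) = br (g a) (ci (g b) (Sop g l 0 z))
      have gd := Sop_good g h l 0 hz
      rw [gd.p3' h, gd.p3' h, gd.p3]
    · simp only [Sop_cons_succ]
      exact (Sop_good g h l j hz).p2 h _ _
  | trans _ _ ih1 ih2 => rw [ih1, ih2]

/-- anticommutators can be pushed inside -/
lemma ci_Sop (h : Hyp A) (c : A) (l : List ℕ) (j : ℕ) {z : A} (hz : Good z) :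
    ci c (Sop g l j z) = Sop g l j (ci c z) := by
  induction l generalizing j with
  | nil => rw [Sop_nil, Sop_nil]
  | cons a l ih =>
    cases j with
    | zero => rw [Sop_cons_zero, Sop_cons_zero, (Sop_good g h l 0 hz).p1 h, ih]
    | succ j => rw [Sop_cons_succ, Sop_cons_succ, ← ih, (Sop_good g h l j hz).p3' h]

/-- brackets can be pushed inside -/
lemma br_Sop (h : Hyp A) (c : A) (l : List ℕ) (j : ℕ) {z : A} (hz : Good z) :
    br c (Sop g l j z) = Sop g l j (br c z) := by
  induction l generalizing j with
  | nil => rw [Sop_nil, Sop_nil]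
  | cons a l ih =>
    cases j with
    | zero => rw [Sop_cons_zero, Sop_cons_zero, (Sop_good g h l 0 hz).p3' h, ih]
    | succ j => rw [Sop_cons_succ, Sop_cons_succ, ← ih, (Sop_good g h l j hz).p2 h]

lemma Sop_push (h : Hyp A) (a : ℕ) (l : List ℕ) (j : ℕ) (hj : j ≤ l.length) {z : A}
    (hz : Good z) : ci (g a) (Sop g l j z) = Sop g (a :: l) j z := by
  induction l generalizing j with
  | nil =>
    have : j = 0 := by simpa using hj
    subst this; rfl
  | cons b l ih =>
    cases j with
    | zero => rfl
    | succ j =>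
      have hj' : j ≤ l.length := by simpa using hj
      rw [Sop_cons_succ, ← (Sop_good g h l j hz).p3' h, ih j hj', ← Sop_cons_succ]
      exact Sop_perm g h (List.Perm.swap _ _ _) _ hz

/-- the spanning elements of the kernel part -/
def EL (g : ℕ → A) : List ℕ → ℕ → ℕ → ℕ → A
  | l, j + 1, x, y => Sop g l j (br (g x) (g y))
  | [], 0, _, _ => 0
  | b :: l, 0, x, y => Sop g l 0 (aso (g x) (g b) (g y))

lemma EL_succ (l : List ℕ) (j x y : ℕ) : EL g l (j + 1) x y = Sop g l j (br (g x) (g y)) := by
  cases l <;> rfl
lemma EL_cons_zero (b : ℕ) (l : List ℕ) (x y : ℕ) :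
    EL g (b :: l) 0 x y = Sop g l 0 (aso (g x) (g b) (g y)) := rfl
lemma EL_nil_zero (x y : ℕ) : EL g [] 0 x y = 0 := rfl

lemma EL_perm (h : Hyp A) {l l' : List ℕ} (p : l.Perm l') (j x y : ℕ) :
    EL g l j x y = EL g l' j x y := by
  cases j with
  | succ j => rw [EL_succ, EL_succ]; exact Sop_perm g h p j (good_br h _ _)
  | zero =>
    induction p with
    | nil => rfl
    | cons a p _ => rw [EL_cons_zero, EL_cons_zero]; exact Sop_perm g h p 0 (good_aso h _ _ _)
    | swap a b l =>
      rw [EL_cons_zero, EL_cons_zero, Sop_cons_zero, Sop_cons_zero,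
        ci_Sop g h _ l 0 (good_aso h _ _ _), ci_Sop g h _ l 0 (good_aso h _ _ _), i1 h]
    | trans _ _ ih1 ih2 => rw [ih1, ih2]

lemma EL_skew (l : List ℕ) (j x y : ℕ) : EL g l j x y = - EL g l j y x := by
  cases j with
  | succ j => rw [EL_succ, EL_succ, br_skew, Sop_neg]
  | zero =>
    cases l with
    | nil => simp [EL_nil_zero]
    | cons b l => rw [EL_cons_zero, EL_cons_zero, aso_skew, Sop_neg]

lemma EL_self (h : Hyp A) (l : List ℕ) (j x : ℕ) : EL g l j x x = 0 := by
  apply half h
  have := EL_skew g l j x x
  nth_rewrite 1 [this]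
  simp

lemma EL_cyc (h : Hyp A) (l : List ℕ) (j x y z : ℕ) :
    EL g (z :: l) j x y + EL g (x :: l) j y z + EL g (y :: l) j z x = 0 := by
  rcases j with _ | _ | j
  · simp only [EL_cons_zero]
    rw [← Sop_add, ← Sop_add]
    have : aso (g x) (g z) (g y) + aso (g y) (g x) (g z) + aso (g z) (g y) (g x) = 0 := by
      rw [← aso_cyc (g x) (g z) (g y)]; abel
    rw [this, Sop_zero]
  · simp only [EL_succ, Sop_cons_zero]
    rw [ci_Sop g h _ l 0 (good_br h _ _), ci_Sop g h _ l 0 (good_br h _ _),
      ci_Sop g h _ l 0 (good_br h _ _), ← Sop_add, ← Sop_add]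
    have : ci (g z) (br (g x) (g y)) + ci (g x) (br (g y) (g z)) + ci (g y) (br (g z) (g x)) = 0 := by
      rw [← cyc h (g x) (g y) (g z), ci_comm (g z), ci_comm (g x), ci_comm (g y)]
    rw [this, Sop_zero]
  · simp only [EL_succ, Sop_cons_succ]
    rw [br_Sop g h _ l j (good_br h _ _), br_Sop g h _ l j (good_br h _ _),
      br_Sop g h _ l j (good_br h _ _), ← Sop_add, ← Sop_add]
    have : br (g z) (br (g x) (g y)) + br (g x) (br (g y) (g z)) + br (g y) (br (g z) (g x)) = 0 := by
      have := JA0 h (g x) (g y) (g z)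
      unfold JAp at this
      rw [br_skew (g z) (br (g x) (g y)), br_skew (g x) (br (g y) (g z)),
        br_skew (g y) (br (g z) (g x)), ← neg_eq_zero, ← this]
      abel
    rw [this, Sop_zero]

/-- admissible pairs -/
def Valid (l : List ℕ) (j : ℕ) : Prop := j ≤ l.length + 1 ∧ (j = 0 → l ≠ [])

lemma ci_EL (h : Hyp A) (a : ℕ) (l : List ℕ) (j x y : ℕ) (hv : Valid l j) :
    ci (g a) (EL g l j x y) = EL g (a :: l) j x y := by
  cases j with
  | succ j =>
    rw [EL_succ, EL_succ]
    exact Sop_push g h a l j (by have := hv.1; omega) (good_br h _ _)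
  | zero =>
    cases l with
    | nil => exact absurd rfl (hv.2 rfl)
    | cons b l =>
      rw [EL_perm g h (List.Perm.swap b a l), EL_cons_zero, EL_cons_zero]; rfl

lemma br_EL (h : Hyp A) (a : ℕ) (l : List ℕ) (j x y : ℕ) (hv : Valid l j) :
    br (g a) (EL g l j x y) = EL g (a :: l) (j + 1) x y := by
  cases j with
  | succ j => rw [EL_succ, EL_succ]; rfl
  | zero =>
    cases l with
    | nil => exact absurd rfl (hv.2 rfl)
    | cons b l =>
      have gb := good_br h (g x) (g y)
      rw [EL_cons_zero, EL_succ, br_Sop g h _ l 0 (good_aso h _ _ _), br_aso' h, Sop_cons_zero,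
        Sop_cons_zero, ci_Sop g h _ l 0 gb, ci_Sop g h _ l 0 (gb.ci h _), gb.p1 h]

lemma Valid.cons {l : List ℕ} {j : ℕ} (hv : Valid l j) (a : ℕ) : Valid (a :: l) j :=
  ⟨by have := hv.1; simp; omega, fun _ => by simp⟩
lemma Valid.cons' {l : List ℕ} {j : ℕ} (hv : Valid l j) (a : ℕ) : Valid (a :: l) (j + 1) :=
  ⟨by have := hv.1; simp; omega, fun _ => by simp⟩

lemma EL_good (h : Hyp A) (l : List ℕ) (j x y : ℕ) : Good (EL g l j x y) := by
  cases j with
  | succ j => rw [EL_succ]; exact Sop_good g h l j (good_br h _ _)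
  | zero =>
    cases l with
    | nil => exact good_zero
    | cons b l => exact Sop_good g h l 0 (good_aso h _ _ _)

lemma EL_kills (h : Hyp A) (l : List ℕ) (j x y : ℕ) : Kills (EL g l j x y) := by
  have key : ∀ (l : List ℕ) (j : ℕ) (z : A), Kills z → Kills (Sop g l j z) := by
    intro l
    induction l with
    | nil => intro j z hz; rw [Sop_nil]; exact hz
    | cons a l ih =>
      intro j z hz
      cases j with
      | zero => exact (ih 0 z hz).ci h _
      | succ j => exact kills_br h _ _
  cases j with
  | succ j => rw [EL_succ]; exact key l j _ (kills_br h _ _)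
  | zero =>
    cases l with
    | nil => exact kills_zero
    | cons b l => exact key l 0 _ (kills_aso h _ _ _)

end sop


section module

variable (F : Type u) [Field F] [Module F A] [IsScalarTower F A A] [SMulCommClass F A A]

omit [IsScalarTower F A A] in
lemma ci_smul [IsScalarTower F A A] (c : F) (x y : A) : ci x (c • y) = c • ci x y := by
  simp only [ci, mul_smul_comm, smul_mul_assoc, smul_add]
lemma smul_ci (c : F) (x y : A) : ci (c • x) y = c • ci x y := by
  simp only [ci, mul_smul_comm, smul_mul_assoc, smul_add]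
lemma br_smul (c : F) (x y : A) : br x (c • y) = c • br x y := by
  simp only [br, mul_smul_comm, smul_mul_assoc, smul_sub]
lemma smul_br (c : F) (x y : A) : br (c • x) y = c • br x y := by
  simp only [br, mul_smul_comm, smul_mul_assoc, smul_sub]

lemma good_smul (c : F) {z : A} (hz : Good z) : Good (c • z) where
  p3 a b := by rw [br_smul, ci_smul, br_smul, ci_smul, hz.p3]
  p4 a b := by rw [ci_smul, ci_smul, ci_smul, hz.p4, smul_add]
  p5a a b := by rw [ci_smul, hz.p5a, smul_zero]
  p5b a b := by rw [br_smul, hz.p5b, smul_zero]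

lemma kills_smul (c : F) {z : A} (hz : Kills z) : Kills (c • z) := by
  intro y hy
  rw [smul_ci, smul_br, (hz y hy).1, (hz y hy).2]
  simp

variable (g : ℕ → A)

/-- span of the kernel elements -/
def KK : Submodule F A := Submodule.span F {z | ∃ l j x y, Valid l j ∧ z = EL g l j x y}

lemma EL_mem (l : List ℕ) (j x y : ℕ) (hv : Valid l j) : EL g l j x y ∈ KK F g :=
  Submodule.subset_span ⟨l, j, x, y, hv, rfl⟩

lemma KK_good (h : Hyp A) {z : A} (hz : z ∈ KK F g) : Good z := by
  induction hz using Submodule.span_induction with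
  | mem z hz => obtain ⟨l, j, x, y, _, rfl⟩ := hz; exact EL_good g h l j x y
  | zero => exact good_zero
  | add x y _ _ hx hy => exact hx.add hy
  | smul c x _ hx => exact good_smul F c hx

lemma KK_kills (h : Hyp A) {z : A} (hz : z ∈ KK F g) : Kills z := by
  induction hz using Submodule.span_induction with
  | mem z hz => obtain ⟨l, j, x, y, _, rfl⟩ := hz; exact EL_kills g h l j x y
  | zero => exact kills_zero
  | add x y _ _ hx hy => exact hx.add hy
  | smul c x _ hx => exact kills_smul F c hx

lemma KK_gen (h : Hyp A) (a : ℕ) {z : A} (hz : z ∈ KK F g) :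
    ci (g a) z ∈ KK F g ∧ br (g a) z ∈ KK F g := by
  induction hz using Submodule.span_induction with
  | mem z hz =>
    obtain ⟨l, j, x, y, hv, rfl⟩ := hz
    rw [ci_EL g h a l j x y hv, br_EL g h a l j x y hv]
    exact ⟨EL_mem F g _ _ _ _ (hv.cons a), EL_mem F g _ _ _ _ (hv.cons' a)⟩
  | zero => rw [ci_zero, br_zero]; exact ⟨(KK F g).zero_mem, (KK F g).zero_mem⟩
  | add x y _ _ hx hy =>
    rw [ci_add, br_add]
    exact ⟨(KK F g).add_mem hx.1 hy.1, (KK F g).add_mem hx.2 hy.2⟩
  | smul c x _ hx =>
    rw [ci_smul, br_smul]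
    exact ⟨(KK F g).smul_mem c hx.1, (KK F g).smul_mem c hx.2⟩

/-- words in the generators -/
inductive Word : A → Prop
  | gen (i : ℕ) : Word (g i)
  | mul {x y : A} : Word x → Word y → Word (x * y)

variable [CharZero F]

lemma half_mem {S : Submodule F A} {x : A} (hx : x + x ∈ S) : x ∈ S := by
  have : x = (2⁻¹ : F) • (x + x) := by
    rw [← two_smul F x, smul_smul, inv_mul_cancel₀ (by norm_num), one_smul]
  rw [this]
  exact S.smul_mem _ hx

omit [Module F A] [IsScalarTower F A A] [SMulCommClass F A A] in
lemma two_mul' (x y : A) : x * y + x * y = ci x y + br x y := by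
  simp only [ci, br]; abel

lemma KK_word (h : Hyp A) {u : A} (hu : Word g u) :
    ∀ z ∈ KK F g, ci u z ∈ KK F g ∧ br u z ∈ KK F g := by
  induction hu with
  | gen i => intro z hz; exact KK_gen F g h i hz
  | @mul x y _ _ hx hy =>
    intro z hz
    have gz := KK_good F g h hz
    have e1 : ci (ci x y) z ∈ KK F g := by
      rw [gz.p4]
      exact (KK F g).add_mem (hx _ (hy z hz).1).1 (hx _ (hy z hz).1).1
    have e2 : ci (br x y) z ∈ KK F g := by rw [gz.p5a]; exact (KK F g).zero_mem
    have e3 : br (ci x y) z ∈ KK F g := by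
      rw [leib h]
      exact (KK F g).add_mem (hx _ (hy z hz).2).1 (hy _ (hx z hz).2).1
    have e4 : br (br x y) z ∈ KK F g := by rw [gz.p5b]; exact (KK F g).zero_mem
    constructor
    · apply half_mem F
      rw [← add_ci, two_mul', add_ci]
      exact (KK F g).add_mem e1 e2
    · apply half_mem F
      rw [← add_br, two_mul', add_br]
      exact (KK F g).add_mem e3 e4

/-- commutators of words lie in the kernel part -/
lemma br_word (h : Hyp A) {u : A} (hu : Word g u) : ∀ v, Word g v → br u v ∈ KK F g := by
  induction hu with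
  | gen i =>
    intro v hv
    induction hv with
    | gen j =>
      have : br (g i) (g j) = EL g [] 1 i j := rfl
      rw [this]
      exact EL_mem F g _ _ _ _ ⟨by simp, by simp⟩
    | @mul x y hx hy ihx ihy =>
      apply half_mem F
      rw [← br_add, two_mul', br_add]
      apply (KK F g).add_mem
      · rw [leib' h, ci_comm]
        exact (KK F g).add_mem (KK_word F g h hy _ ihx).1 (KK_word F g h hx _ ihy).1
      · rw [jac h, br_skew _ y]
        exact (KK F g).add_mem ((KK F g).neg_mem (KK_word F g h hy _ ihx).2)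
          (KK_word F g h hx _ ihy).2
  | @mul x y hx hy ihx ihy =>
    intro v hv
    apply half_mem F
    rw [← add_br, two_mul', add_br]
    apply (KK F g).add_mem
    · rw [leib h]
      exact (KK F g).add_mem (KK_word F g h hx _ (ihy v hv)).1 (KK_word F g h hy _ (ihx v hv)).1
    · rw [br_skew]
      exact (KK F g).neg_mem (KK_word F g h hv _ (ihx y hy)).2

lemma aso_add2 (x y z w : A) : aso (x + y) z w = aso x z w + aso y z w := aso_add_left x y z w

/-- associators of words lie in the kernel part -/
lemma aso_word (h : Hyp A) {v : A} (hv : Word g v) :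
    ∀ u w, Word g u → Word g w → aso u v w ∈ KK F g := by
  induction hv with
  | gen b =>
    intro u w hu
    induction hu generalizing w with
    | gen x =>
      intro hw
      induction hw with
      | gen y =>
        have : aso (g x) (g b) (g y) = EL g [b] 0 x y := rfl
        rw [this]
        exact EL_mem F g _ _ _ _ ⟨by simp, by simp⟩
      | @mul w1 w2 hw1 hw2 ih1 ih2 =>
        apply half_mem F
        rw [← aso_add_right, two_mul', aso_add_right]
        apply (KK F g).add_mem
        · rw [i2' h]
          exact (KK F g).add_mem (KK_word F g h hw1 _ ih2).1 (KK_word F g h hw2 _ ih1).1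
        · rw [aso_br_right h]
          exact (KK_word F g h (Word.gen b) _ (KK_word F g h (Word.gen x) _
            (br_word F g h hw1 _ hw2)).1).1
    | @mul u1 u2 hu1 hu2 ih1 ih2 =>
      intro hw
      apply half_mem F
      rw [← aso_add_left, two_mul', aso_add_left]
      apply (KK F g).add_mem
      · rw [i2 h]
        exact (KK F g).add_mem (KK_word F g h hu1 _ (ih2 w hw)).1
          (KK_word F g h hu2 _ (ih1 w hw)).1
      · rw [aso_br_left h]
        exact (KK F g).neg_mem (KK_word F g h (Word.gen b) _ (KK_word F g h hw _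
            (br_word F g h hu1 _ hu2)).1).1
  | @mul v1 v2 hv1 hv2 ih1 ih2 =>
    intro u w hu hw
    apply half_mem F
    rw [← aso_add_mid, two_mul', aso_add_mid]
    apply (KK F g).add_mem
    · rw [i3 h]
      exact (KK F g).add_mem (KK_word F g h hv2 _ (ih1 u w hu hw)).1
          (KK_word F g h hv2 _ (ih1 u w hu hw)).1
    · rw [aso_br_mid h]
      exact (KK F g).zero_mem

/-- the whole spanning submodule -/
def UU : Submodule F A :=
  Submodule.span F ({z | ∃ l x, z = Sop g l 0 (g x)} ∪ (KK F g : Set A))

lemma KK_le : KK F g ≤ UU F g := fun _ hz => Submodule.subset_span (Or.inr hz)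

variable (hA : ∀ z : A, z ∈ Submodule.span F {w | Word g w})

include hA in
lemma KK_all (h : Hyp A) (u : A) {z : A} (hz : z ∈ KK F g) :
    ci u z ∈ KK F g ∧ br u z ∈ KK F g := by
  have hu := hA u
  induction hu using Submodule.span_induction with
  | mem w hw => exact KK_word F g h hw z hz
  | zero => rw [zero_ci, zero_br]; exact ⟨(KK F g).zero_mem, (KK F g).zero_mem⟩
  | add x y _ _ hx hy =>
    rw [add_ci, add_br]
    exact ⟨(KK F g).add_mem hx.1 hy.1, (KK F g).add_mem hx.2 hy.2⟩
  | smul c x _ hx =>
    rw [smul_ci, smul_br]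
    exact ⟨(KK F g).smul_mem c hx.1, (KK F g).smul_mem c hx.2⟩

include hA in
lemma br_all (h : Hyp A) (u v : A) : br u v ∈ KK F g := by
  have hu := hA u
  induction hu using Submodule.span_induction with
  | mem w hw =>
    have hv := hA v
    induction hv using Submodule.span_induction with
    | mem w' hw' => exact br_word F g h hw w' hw'
    | zero => rw [br_zero]; exact (KK F g).zero_mem
    | add x y _ _ hx hy => rw [br_add]; exact (KK F g).add_mem hx hy
    | smul c x _ hx => rw [br_smul]; exact (KK F g).smul_mem c hx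
  | zero => rw [zero_br]; exact (KK F g).zero_mem
  | add x y _ _ hx hy => rw [add_br]; exact (KK F g).add_mem hx hy
  | smul c x _ hx => rw [smul_br]; exact (KK F g).smul_mem c hx

omit [CharZero F] in
lemma aso_smul_left (c : F) (x y z : A) : aso (c • x) y z = c • aso x y z := by
  simp only [aso, smul_ci, smul_sub]
omit [CharZero F] in
lemma aso_smul_mid (c : F) (x y z : A) : aso x (c • y) z = c • aso x y z := by
  simp only [aso, smul_ci, ci_smul, smul_sub]
omit [CharZero F] in
lemma aso_smul_right (c : F) (x y z : A) : aso x y (c • z) = c • aso x y z := by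
  simp only [aso, smul_ci, ci_smul, smul_sub]

omit [Module F A] [IsScalarTower F A A] [SMulCommClass F A A] [CharZero F] [Field F] in
lemma aso_zeros (x y : A) : aso 0 x y = 0 ∧ aso x 0 y = 0 ∧ aso x y 0 = 0 := by
  simp [aso, ci_zero, zero_ci]

include hA in
lemma aso_all (h : Hyp A) (u v w : A) : aso u v w ∈ KK F g := by
  have hu := hA u
  induction hu using Submodule.span_induction with
  | mem u' hu' =>
    have hv := hA v
    induction hv using Submodule.span_induction with
    | mem v' hv' =>
      have hw := hA w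
      induction hw using Submodule.span_induction with
      | mem w' hw' => exact aso_word F g h hv' _ _ hu' hw'
      | zero => rw [(aso_zeros _ _).2.2]; exact (KK F g).zero_mem
      | add x y _ _ hx hy => rw [aso_add_right]; exact (KK F g).add_mem hx hy
      | smul c x _ hx => rw [aso_smul_right]; exact (KK F g).smul_mem c hx
    | zero => rw [(aso_zeros _ _).2.1]; exact (KK F g).zero_mem
    | add x y _ _ hx hy => rw [aso_add_mid]; exact (KK F g).add_mem hx hy
    | smul c x _ hx => rw [aso_smul_mid]; exact (KK F g).smul_mem c hx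
  | zero => rw [(aso_zeros _ _).1]; exact (KK F g).zero_mem
  | add x y _ _ hx hy => rw [aso_add_left]; exact (KK F g).add_mem hx hy
  | smul c x _ hx => rw [aso_smul_left]; exact (KK F g).smul_mem c hx

include hA in
lemma UU_ci_gen (h : Hyp A) (a : ℕ) {z : A} (hz : z ∈ UU F g) : ci (g a) z ∈ UU F g := by
  induction hz using Submodule.span_induction with
  | mem z hz =>
    rcases hz with ⟨l, x, rfl⟩ | hz
    · exact Submodule.subset_span (Or.inl ⟨a :: l, x, rfl⟩)
    · exact KK_le F g (KK_all F g hA h _ hz).1
  | zero => rw [ci_zero]; exact (UU F g).zero_mem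
  | add x y _ _ hx hy => rw [ci_add]; exact (UU F g).add_mem hx hy
  | smul c x _ hx => rw [ci_smul]; exact (UU F g).smul_mem c hx

include hA in
lemma UU_ci_word (h : Hyp A) {u : A} (hu : Word g u) : ∀ z ∈ UU F g, ci u z ∈ UU F g := by
  induction hu with
  | gen i => intro z hz; exact UU_ci_gen F g hA h i hz
  | @mul x y _ _ hx hy =>
    intro z hz
    apply half_mem F
    rw [← add_ci, two_mul', add_ci]
    apply (UU F g).add_mem
    · have : ci (ci x y) z = ci x (ci y z) + aso x y z := by simp only [aso]; abel
      rw [this]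
      exact (UU F g).add_mem (hx _ (hy z hz)) (KK_le F g (aso_all F g hA h _ _ _))
    · rw [ci_comm]
      exact KK_le F g (KK_all F g hA h _ (br_all F g hA h _ _)).1

include hA in
lemma UU_word (h : Hyp A) {u : A} (hu : Word g u) : u ∈ UU F g := by
  induction hu with
  | gen i => exact Submodule.subset_span (Or.inl ⟨[], i, rfl⟩)
  | @mul x y hx _ _ ihy =>
    apply half_mem F
    rw [two_mul']
    exact (UU F g).add_mem (UU_ci_word F g hA h hx _ ihy) (KK_le F g (br_all F g hA h _ _))

include hA in
lemma UU_top (h : Hyp A) (u : A) : u ∈ UU F g := by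
  have hu := hA u
  induction hu using Submodule.span_induction with
  | mem u hu => exact UU_word F g hA h hu
  | zero => exact (UU F g).zero_mem
  | add x y _ _ hx hy => exact (UU F g).add_mem hx hy
  | smul c x _ hx => exact (UU F g).smul_mem c hx

/-! permutation invariance of the commutative monomials modulo the kernel part -/

/-- commutative monomials -/
def CL (g : ℕ → A) : List ℕ → A
  | [] => 0
  | x :: l => Sop g l 0 (g x)

include hA in
lemma Sop_perm_mod (h : Hyp A) {l l' : List ℕ} (p : l.Perm l') (z : A) :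
    Sop g l 0 z - Sop g l' 0 z ∈ KK F g := by
  induction p with
  | nil => rw [sub_self]; exact (KK F g).zero_mem
  | cons a _ ih =>
    rw [Sop_cons_zero, Sop_cons_zero, ← ci_sub]
    exact (KK_all F g hA h _ ih).1
  | swap a b l =>
    simp only [Sop_cons_zero]
    rw [← aso_mid]
    exact aso_all F g hA h _ _ _
  | trans _ _ ih1 ih2 =>
    have := (KK F g).add_mem ih1 ih2
    rwa [sub_add_sub_cancel] at this

include hA in
lemma CL_head (h : Hyp A) (a x : ℕ) (l : List ℕ) :
    Sop g (a :: l) 0 (g x) - Sop g (x :: l) 0 (g a) ∈ KK F g := by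
  induction l generalizing a x with
  | nil =>
    rw [Sop_cons_zero, Sop_cons_zero, Sop_nil, Sop_nil, ci_comm, sub_self]
    exact (KK F g).zero_mem
  | cons b l ih =>
    have e1 := Sop_perm_mod F g hA h (List.Perm.swap a b l) (g x)
    have e3 := Sop_perm_mod F g hA h (List.Perm.swap x b l) (g a)
    have e2 := (KK_all F g hA h (g b) (ih a x)).1
    rw [ci_sub] at e2
    change Sop g (b :: a :: l) 0 (g x) - Sop g (b :: x :: l) 0 (g a) ∈ _ at e2
    have := (KK F g).add_mem ((KK F g).sub_mem e2 e1) e3
    convert this using 1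
    abel

include hA in
lemma CL_perm (h : Hyp A) {l l' : List ℕ} (p : l.Perm l') : CL g l - CL g l' ∈ KK F g := by
  induction p with
  | nil => rw [sub_self]; exact (KK F g).zero_mem
  | cons a p _ => exact Sop_perm_mod F g hA h p _
  | swap a b l => exact CL_head F g hA h a b l
  | trans _ _ ih1 ih2 =>
    have := (KK F g).add_mem ih1 ih2
    rwa [sub_add_sub_cancel] at this

end module

end Pool.Agent.PermMut
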